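import Pool.Agent.Helper21.WD.StmtsMR
import Pool.Agent.Helper21.WD.StmtsV

/-!
# Isolated Hodge numbers: Lie algebras defined over the rational numbers: exact statements (T15)
Proofs: /team-store/we_helper21.md
-/

set_option autoImplicit false

open Matrix

namespace MT

section defs

variable {K : Type} [Field K] {n : ℕ}

/-- the elements of `a` which commute with the elements of degree `1` and `-1` (for `T`) -/
def Cen (a : Submodule K (Matrix (Fin n) (Fin n) K)) (T : Matrix (Fin n) (Fin n) K) :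
    Submodule K (Matrix (Fin n) (Fin n) K) where
  carrier := {A | A ∈ a ∧ ∀ B ∈ a, (T * B - B * T = B ∨ T * B - B * T = -B) → A * B = B * A}
  add_mem' := by
    rintro x y ⟨hx, hx'⟩ ⟨hy, hy'⟩
    refine ⟨a.add_mem hx hy, fun B hB h => ?_⟩
    rw [Matrix.add_mul, Matrix.mul_add, hx' B hB h, hy' B hB h]
  zero_mem' := ⟨a.zero_mem, fun B _ _ => by rw [Matrix.zero_mul, Matrix.mul_zero]⟩
  smul_mem' := by
    rintro c x ⟨hx, hx'⟩
    refine ⟨a.smul_mem c hx, fun B hB h => ?_⟩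
    rw [Matrix.smul_mul, Matrix.mul_smul, hx' B hB h]

/-- no element of `a` commutes with all the elements of degree `1` and `-1` (for the grading `s`) -/
def Cz (s : Fin n → ℤ) (a : Submodule K (Matrix (Fin n) (Fin n) K)) : Prop :=
  ∀ A ∈ a, (∀ B ∈ a, (cmp s 1 B = B ∨ cmp s (-1) B = B) → A * B = B * A) → A = 0

/-- the space `C` is an ideal of `a` -/
def Idl (a C : Submodule K (Matrix (Fin n) (Fin n) K)) : Prop :=
  C ≤ a ∧ ∀ A ∈ a, ∀ B ∈ C, A * B - B * A ∈ C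

/-- an irreducible Lie algebra of infinitesimal isometries -/
def Irs (ψ : Matrix (Fin n) (Fin n) K) (a : Submodule K (Matrix (Fin n) (Fin n) K)) : Prop :=
  ψ.det ≠ 0 ∧ Brk a ∧ LIrr a ∧ ∀ A ∈ a, A.transpose * ψ + ψ * A = 0

/-- the conjugate of a diagonal matrix with integral entries -/
def dg (P : Matrix.GeneralLinearGroup (Fin n) K) (s : Fin n → ℤ) : Matrix (Fin n) (Fin n) K :=
  (P : Matrix (Fin n) (Fin n) K) * Matrix.diagonal (fun j => (s j : K)) *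
    ((P⁻¹ : Matrix.GeneralLinearGroup (Fin n) K) : Matrix (Fin n) (Fin n) K)

end defs

/-! ## A. Structure -/

/-- SSL: ideals have complements. -/
def ST_SSL : Prop :=
  ∀ (K : Type) [Field K] [CharZero K] [IsAlgClosed K] (n : ℕ) (ψ : Matrix (Fin n) (Fin n) K)
    (a C : Submodule K (Matrix (Fin n) (Fin n) K)), Irs ψ a → Idl a C →
    ∀ X ∈ a, ∃ x ∈ a, ∃ y ∈ C, X = x + y ∧ ∀ B ∈ C, x * B = B * x

/-- TNS: tensor decomposition (from SSL). -/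
def ST_TNS : Prop :=
  ∀ (K : Type) [Field K] [CharZero K] [IsAlgClosed K] (n : ℕ) (ψ : Matrix (Fin n) (Fin n) K)
    (a C : Submodule K (Matrix (Fin n) (Fin n) K)), 0 < n → Irs ψ a → Idl a C →
    ∃ (r u : ℕ) (e : Fin n ≃ Fin r × Fin u) (R : Matrix.GeneralLinearGroup (Fin n) K),
      (∀ x : Matrix (Fin n) (Fin n) K, (∀ c ∈ C, x * c = c * x) →
        ∃ X : Matrix (Fin u) (Fin u) K,
          ((R⁻¹ : Matrix.GeneralLinearGroup (Fin n) K) : Matrix (Fin n) (Fin n) K) * x *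
            (R : Matrix (Fin n) (Fin n) K) =
          (Matrix.kronecker (1 : Matrix (Fin r) (Fin r) K) X).submatrix e e) ∧
      ∀ y : Matrix (Fin n) (Fin n) K,
        (∀ x ∈ a, (∀ c ∈ C, x * c = c * x) → x * y = y * x) →
        ∃ Y : Matrix (Fin r) (Fin r) K,
          ((R⁻¹ : Matrix.GeneralLinearGroup (Fin n) K) : Matrix (Fin n) (Fin n) K) * y *
            (R : Matrix (Fin n) (Fin n) K) =
          (Matrix.kronecker Y (1 : Matrix (Fin u) (Fin u) K)).submatrix e e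

/-- KRD: multiplicities of the eigenvalues. -/
def ST_KRD : Prop :=
  ∀ (K : Type) [Field K] [CharZero K] (n r u : ℕ) (e : Fin n ≃ Fin r × Fin u)
    (R P : Matrix.GeneralLinearGroup (Fin n) K) (h : Fin n → ℤ),
    (∀ X : Matrix (Fin u) (Fin u) K,
      ((R⁻¹ : Matrix.GeneralLinearGroup (Fin n) K) : Matrix (Fin n) (Fin n) K) * dg P h *
        (R : Matrix (Fin n) (Fin n) K) =
      (Matrix.kronecker (1 : Matrix (Fin r) (Fin r) K) X).submatrix e e →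
        ∀ p : ℤ, r ∣ (Finset.univ.filter fun j => h j = p).card) ∧
    ∀ Y : Matrix (Fin r) (Fin r) K,
      ((R⁻¹ : Matrix.GeneralLinearGroup (Fin n) K) : Matrix (Fin n) (Fin n) K) * dg P h *
        (R : Matrix (Fin n) (Fin n) K) =
      (Matrix.kronecker Y (1 : Matrix (Fin u) (Fin u) K)).submatrix e e →
        ∀ p : ℤ, u ∣ (Finset.univ.filter fun j => h j = p).card

/-- TRI: the position of an element with eigenvalues `1`, `0`, `-1` (from SSL, TNS). -/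
def ST_TRI : Prop :=
  ∀ (K : Type) [Field K] [CharZero K] [IsAlgClosed K] (n : ℕ) (ψ : Matrix (Fin n) (Fin n) K)
    (P : Matrix.GeneralLinearGroup (Fin n) K) (s : Fin n → ℤ)
    (a C : Submodule K (Matrix (Fin n) (Fin n) K)), 0 < n → Irs ψ a → Idl a C →
    (∀ j, |s j| ≤ 1) → dg P s ∈ a →
    (∀ B ∈ C, dg P s * B = B * dg P s) ∨
    (∀ x ∈ a, (∀ B ∈ C, x * B = B * x) → dg P s * x = x * dg P s) ∨
    ((Finset.univ.filter fun j => s j = 0).card =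
        2 * (Finset.univ.filter fun j => s j = 1).card ∧
      ∀ D ∈ a, dg P s * D = 0 → D * dg P s = 0 →
        ∃ c : K, D * D = c • (1 - dg P s * dg P s))

/-- IDL: the ideal `Cen` (from SPB, `ST_TPI`, `ST_GRA`). -/
def ST_IDL : Prop :=
  ∀ (K : Type) [Field K] [CharZero K] [IsAlgClosed K] (n : ℕ) (ε : K)
    (ψ : Matrix (Fin n) (Fin n) K) (P : Matrix.GeneralLinearGroup (Fin n) K) (s : Fin n → ℤ)
    (a : Submodule K (Matrix (Fin n) (Fin n) K)), ψ.transpose = ε • ψ → (ε = 1 ∨ ε = -1) →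
    Irs ψ a → (∀ j, |s j| ≤ 1) → (∃ j, s j = 1) → (∃ j, s j = 0) → dg P s ∈ a →
    Idl a (Cen a (dg P s)) ∧ (∀ B ∈ Cen a (dg P s), dg P s * B = B * dg P s) ∧
    ∀ X ∈ a, (∃ c : K, X * (dg P s * dg P s + dg P s) = c • (dg P s * dg P s + dg P s)) →
      ∀ B ∈ Cen a (dg P s), X * B = B * X

/-- DSC: descent. -/
def ST_DSC : Prop :=
  ∀ (n : ℕ) (W : Submodule ℂ (Matrix (Fin n) (Fin n) ℂ)),
    (∀ σ : ℂ ≃+* ℂ, ∀ A ∈ W, A.map σ ∈ W) →
    (∀ M : Matrix (Fin n) (Fin n) ℚ, M.map (algebraMap ℚ ℂ) ∈ W → M = 0) → ∀ A ∈ W, A = 0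

/-- CZC: coprime multiplicities (from TNS, KRD, IDL). -/
def ST_CZC : Prop :=
  ∀ (K : Type) [Field K] [CharZero K] [IsAlgClosed K] (n : ℕ) (ε : K)
    (ψ : Matrix (Fin n) (Fin n) K) (P : Matrix.GeneralLinearGroup (Fin n) K)
    (s h : Fin n → ℤ) (N : ℤ) (a : Submodule K (Matrix (Fin n) (Fin n) K)),
    ψ.transpose = ε • ψ → (ε = 1 ∨ ε = -1) → Irs ψ a → (∀ j, |s j| ≤ 1) → (∃ j, s j = 1) →
    (∃ j, s j = 0) → dg P s ∈ a → dg P h ∈ a → (∀ j, s j = 1 → h j = N) →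
    (∀ u : ℕ, (∀ p : ℤ, u ∣ (Finset.univ.filter fun j => h j = p).card) → u = 1) →
    ∀ A ∈ Cen a (dg P s), A = 0

/-- CZH: Lie algebras defined over `ℚ` (from TNS, KRD, TRI, IDL, DSC). -/
def ST_CZH : Prop :=
  ∀ (n : ℕ) (ε : ℂ) (ψ : Matrix (Fin n) (Fin n) ℂ) (P : Matrix.GeneralLinearGroup (Fin n) ℂ)
    (s h : Fin n → ℤ) (N : ℤ) (a : Submodule ℂ (Matrix (Fin n) (Fin n) ℂ)),
    ψ.transpose = ε • ψ → (ε = 1 ∨ ε = -1) → Irs ψ a → (∀ j, |s j| ≤ 1) → (∃ j, s j = 1) →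
    (∃ j, s j = 0) → dg P s ∈ a → dg P h ∈ a → (∀ j, s j = 1 → h j = N) →
    (∀ j, s j = -1 → h j = -N) → (∀ σ : ℂ ≃+* ℂ, ∀ A ∈ a, A.map σ ∈ a) →
    (∀ M : Matrix (Fin n) (Fin n) ℚ,
      M.map (algebraMap ℚ ℂ) * dg P h = dg P h * M.map (algebraMap ℚ ℂ) →
        ∃ c : ℚ, M = c • 1) →
    (∀ u : ℕ, (∀ p : ℤ, u ∣ (Finset.univ.filter fun j => h j = p).card) → u ^ 2 < n) →
    ((Finset.univ.filter fun j => s j = 0).card ≠
        2 * (Finset.univ.filter fun j => s j = 1).card ∨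
      ∃ i j, s i = 0 ∧ s j = 0 ∧ h i ≠ h j ∧ h i + h j ≠ 0) →
    ∀ A ∈ Cen a (dg P s), A = 0

/-- GEN0: the part of degree zero is generated by the other parts (from SSL). -/
def ST_GEN0 : Prop :=
  ∀ (K : Type) [Field K] [CharZero K] [IsAlgClosed K] (n : ℕ) (ε : K)
    (ψ : Matrix (Fin n) (Fin n) K) (s : Fin n → ℤ)
    (a : Submodule K (Matrix (Fin n) (Fin n) K)), GrD ε ψ s a → (∀ j, |s j| ≤ 1) → Cz s a →
    ∀ A ∈ a, cmp s 0 A = A → A ∈ Submodule.span K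
      {X | ∃ B ∈ a, ∃ C ∈ a, ((cmp s 1 B = B ∧ cmp s (-1) C = C) ∨
        (cmp s 2 B = B ∧ cmp s (-2) C = C)) ∧ X = B * C - C * B}

/-! ## B. Gradings with three degrees -/

/-- GCN: see GCD (from ALG, RK1, SPB, `ST_TPI`, FIN, GEN0). -/
def ST_GCN : Prop :=
  ∀ (K : Type) [Field K] [CharZero K] [IsAlgClosed K] (n : ℕ) (ε : K)
    (ψ : Matrix (Fin n) (Fin n) K) (s d : Fin n → ℤ)
    (a : Submodule K (Matrix (Fin n) (Fin n) K)), GrD ε ψ s a → GrD ε ψ d a →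
    (∀ j, |s j| ≤ 1) → (∃ j, s j = 1) → (∀ j, s j ≠ 0 → d j = 0) →
    (∃ i j, s i = 0 ∧ s j = 0 ∧ d i ≠ d j ∧ d i + d j ≠ 0) → Cz s a →
    ∀ A : Matrix (Fin n) (Fin n) K, A.transpose * ψ + ψ * A = 0 → A ∈ a

/-- SC2N: see SC2 (from ALG, RK1, TRC, SPB, `ST_TPI`, FIN, GEN0). -/
def ST_SC2N : Prop :=
  ∀ (K : Type) [Field K] [CharZero K] [IsAlgClosed K] (n : ℕ) (ε : K)
    (ψ : Matrix (Fin n) (Fin n) K) (s : Fin n → ℤ)
    (a : Submodule K (Matrix (Fin n) (Fin n) K)), GrD ε ψ s a →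
    (∀ j, |s j| ≤ 1) → (∃ j, s j = 1) → (∃ j, s j = 0) → Cz s a →
    (∃ X₀ : Matrix (Fin n) (Fin n) K, ∀ z ∈ a, cmp s 2 z = z → ∃ c : K, z = c • X₀) ∨
      ∀ A : Matrix (Fin n) (Fin n) K, A.transpose * ψ + ψ * A = 0 → A ∈ a

/-- GC5N: see GC5 (from ALG, RK1, SPB, `ST_TPI`, FIN, GRA, V0I, GEN0). -/
def ST_GC5N : Prop :=
  ∀ (K : Type) [Field K] [CharZero K] [IsAlgClosed K] (n : ℕ) (ε : K)
    (ψ : Matrix (Fin n) (Fin n) K) (s d : Fin n → ℤ)
    (a : Submodule K (Matrix (Fin n) (Fin n) K)), GrD ε ψ s a → GrD ε ψ d a →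
    (∀ j, |s j| ≤ 1) → (∃ j, s j = 1) → (∃ j, s j = 0) → (∀ j, s j = 0 → d j = 0) →
    (∃ i j, s i = 1 ∧ s j = 1 ∧ d i ≠ d j) → Cz s a →
    ∀ A : Matrix (Fin n) (Fin n) K, A.transpose * ψ + ψ * A = 0 → A ∈ a

/-- WT4N: see WT4 (from GRA, TR2, BD3, ONE, GCN). -/
def ST_WT4N : Prop :=
  ∀ (K : Type) [Field K] [CharZero K] [IsAlgClosed K] (n : ℕ) (ε : K)
    (ψ : Matrix (Fin n) (Fin n) K) (s : Fin n → ℤ)
    (a : Submodule K (Matrix (Fin n) (Fin n) K)), GrD ε ψ s a → (∀ j, |s j| ≤ 1) →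
    (∃ j, s j = 1) →
    3 * (Finset.univ.filter fun j => s j = 1).card ^ 2 +
      (Finset.univ.filter fun j => s j = 1).card <
        2 * (Finset.univ.filter fun j => s j = 0).card →
    ¬ ((Finset.univ.filter fun j => s j = 1).card = 2 ∧
      (Finset.univ.filter fun j => s j = 0).card = 8) → Cz s a →
    ∀ A : Matrix (Fin n) (Fin n) K, A.transpose * ψ + ψ * A = 0 → A ∈ a

/-- WT5N: see WT5 (from GRA, TOR5, POS0, GC5N, SC2N, SPB, `ST_TPI`). -/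
def ST_WT5N : Prop :=
  ∀ (K : Type) [Field K] [CharZero K] [IsAlgClosed K] (n : ℕ) (ε : K)
    (ψ : Matrix (Fin n) (Fin n) K) (s : Fin n → ℤ)
    (a : Submodule K (Matrix (Fin n) (Fin n) K)), GrD ε ψ s a → (∀ j, |s j| ≤ 1) →
    (∃ j, s j = 0) →
    (Finset.univ.filter fun j => s j = 0).card ^ 2 +
      (Finset.univ.filter fun j => s j = 0).card + 3 ≤
        2 * (Finset.univ.filter fun j => s j = 1).card → Cz s a →
    ∀ A : Matrix (Fin n) (Fin n) K, A.transpose * ψ + ψ * A = 0 → A ∈ a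

/-! ## C. Hodge numbers -/

/-- the grading given by the type `(m, w - m)` -/
def sgm {n : ℕ} (w m : ℕ) (h : Fin n → ℕ) : Fin n → ℤ :=
  fun j => if h j = m then 1 else if h j + m = w then -1 else 0

/-- No common divisor of the Hodge numbers has square `≥ n`. -/
def Sml {n : ℕ} (h : Fin n → ℕ) : Prop :=
  ∀ u : ℕ, (∀ p : ℕ, u ∣ (Finset.univ.filter fun j => h j = p).card) → u ^ 2 < n

/-- There are two inner types which are not conjugate. -/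
def Two {n : ℕ} (w m : ℕ) (h : Fin n → ℕ) : Prop :=
  ∃ i j, Inn w m (h i) ∧ Inn w m (h j) ∧ h i ≠ h j ∧ h i + h j ≠ w

/-- With `a` the Hodge number of `(m, w - m)` and `b` the sum of the inner ones:
`3 a ^ 2 + a < 2 b`. -/
def Lrg {n : ℕ} (w m : ℕ) (h : Fin n → ℕ) : Prop :=
  3 * (Finset.univ.filter fun j => h j = m).card ^ 2 +
    (Finset.univ.filter fun j => h j = m).card <
      2 * (Finset.univ.filter fun j => h j ≠ m ∧ h j + m ≠ w).card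

/-- With `a` the Hodge number of `(m, w - m)` and `b` the sum of the inner ones:
`b ^ 2 + b + 3 ≤ 2 a`. -/
def Low {n : ℕ} (w m : ℕ) (h : Fin n → ℕ) : Prop :=
  (Finset.univ.filter fun j => h j ≠ m ∧ h j + m ≠ w).card ^ 2 +
    (Finset.univ.filter fun j => h j ≠ m ∧ h j + m ≠ w).card + 3 ≤
      2 * (Finset.univ.filter fun j => h j = m).card

/-- `a = 2` and `b = 8` (see `Lrg`) -/
def Exc {n : ℕ} (w m : ℕ) (h : Fin n → ℕ) : Prop :=
  (Finset.univ.filter fun j => h j = m).card = 2 ∧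
    (Finset.univ.filter fun j => h j ≠ m ∧ h j + m ≠ w).card = 8

/-- The type `(m, w - m)` is isolated or outermost, its Hodge number is at least two, and all the
other Hodge numbers are at most one, and at most two in the middle. -/
def Thn {n : ℕ} (w m : ℕ) (h : Fin n → ℕ) : Prop :=
  (Isol w h m ∨ ∀ j, h j ≤ m ∧ w ≤ h j + m) ∧ 2 ≤ (Finset.univ.filter fun j => h j = m).card ∧
    ∀ p : ℕ, Inn w m p → (Finset.univ.filter fun j => h j = p).card ≤ if 2 * p = w then 2 else 1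

/-- Hodge numbers: for some `m > w / 2` there are types other than `(m, w - m)`, `(w - m, m)`
(inner types), and: the type `(m, w - m)` is isolated, and its Hodge number `a` is one; or it is
isolated, `a` is not zero, the Hodge numbers are coprime, and there are two inner types which are
not conjugate, or `3 a ^ 2 + a < 2 b` or `b ^ 2 + b + 3 ≤ 2 a` for the sum `b` of the inner Hodge
numbers; or `Thn`. -/
def WideC {n : ℕ} (w : ℕ) (h : Fin n → ℕ) : Prop :=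
  ∃ m : ℕ, w < 2 * m ∧ (∃ j, Inn w m (h j)) ∧
    ((Isol w h m ∧ (Finset.univ.filter fun j => h j = m).card = 1) ∨
      (Isol w h m ∧ (∃ j, h j = m) ∧ Cop h ∧ (Two w m h ∨ Lrg w m h ∨ Low w m h)) ∨
      Thn w m h)

/-- Hodge numbers: as `WideC`, but the Hodge numbers need not be coprime: if there are two inner
types which are not conjugate, then no common divisor of the Hodge numbers has square `≥ n`; and
`3 a ^ 2 + a < 2 b` without `(a, b) = (2, 8)`, or `b ^ 2 + b + 3 ≤ 2 a`, suffice. -/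
def WideH {n : ℕ} (w : ℕ) (h : Fin n → ℕ) : Prop :=
  ∃ m : ℕ, w < 2 * m ∧ (∃ j, Inn w m (h j)) ∧
    ((Isol w h m ∧ (Finset.univ.filter fun j => h j = m).card = 1) ∨
      (Isol w h m ∧ (∃ j, h j = m) ∧
        ((Sml h ∧ Two w m h) ∨ (Lrg w m h ∧ ¬ Exc w m h) ∨ Low w m h)) ∨
      Thn w m h)

/-- TOPN: the Lie theorem, if `Cen` is zero (from ADD, SHF, GRA, GCN, WT4N, WT5N; see TOPW). -/
def ST_TOPN : Prop :=
  ∀ (K : Type) [Field K] [CharZero K] [IsAlgClosed K] (n w m : ℕ) (h : Fin n → ℕ)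
    (ψ : Matrix (Fin n) (Fin n) K) (P : Matrix.GeneralLinearGroup (Fin n) K)
    (a : Submodule K (Matrix (Fin n) (Fin n) K)), w < 2 * m → (∃ j, Inn w m (h j)) →
    (∃ j, h j = m) → Isol w h m → (Two w m h ∨ (Lrg w m h ∧ ¬ Exc w m h) ∨ Low w m h) →
    ψ.transpose = (-1 : K) ^ w • ψ → Irs ψ a → dg P (fun j => 2 * (h j : ℤ) - (w : ℤ)) ∈ a →
    (dg P (sgm w m h) ∈ a → ∀ A ∈ Cen a (dg P (sgm w m h)), A = 0) →
    ∀ A : Matrix (Fin n) (Fin n) K, A.transpose * ψ + ψ * A = 0 → A ∈ a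

/-- TOPC: the Lie theorem for coprime Hodge numbers (from TOPN, CZC, `ST_TOPG`). -/
def ST_TOPC : Prop :=
  ∀ (K : Type) [Field K] [CharZero K] [IsAlgClosed K] (n w : ℕ) (h : Fin n → ℕ)
    (ψ : Matrix (Fin n) (Fin n) K) (P : Matrix.GeneralLinearGroup (Fin n) K)
    (a : Submodule K (Matrix (Fin n) (Fin n) K)), WideC w h →
    ψ.transpose = (-1 : K) ^ w • ψ → Irs ψ a → dg P (fun j => 2 * (h j : ℤ) - (w : ℤ)) ∈ a →
    ∀ A : Matrix (Fin n) (Fin n) K, A.transpose * ψ + ψ * A = 0 → A ∈ a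

/-- TOPH: the Lie theorem for Lie algebras defined over `ℚ` (from TOPN, CZH, `ST_TOPG`). -/
def ST_TOPH : Prop :=
  ∀ (n w : ℕ) (h : Fin n → ℕ) (ψ : Matrix (Fin n) (Fin n) ℂ)
    (P : Matrix.GeneralLinearGroup (Fin n) ℂ) (a : Submodule ℂ (Matrix (Fin n) (Fin n) ℂ)),
    WideH w h → ψ.transpose = (-1 : ℂ) ^ w • ψ → Irs ψ a →
    dg P (fun j => 2 * (h j : ℤ) - (w : ℤ)) ∈ a →
    (∀ σ : ℂ ≃+* ℂ, ∀ A ∈ a, A.map σ ∈ a) →
    (∀ M : Matrix (Fin n) (Fin n) ℚ,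
      M.map (algebraMap ℚ ℂ) * dg P (fun j => 2 * (h j : ℤ) - (w : ℤ)) =
        dg P (fun j => 2 * (h j : ℤ) - (w : ℤ)) * M.map (algebraMap ℚ ℂ) → ∃ c : ℚ, M = c • 1) →
    ∀ A : Matrix (Fin n) (Fin n) ℂ, A.transpose * ψ + ψ * A = 0 → A ∈ a

/-- TOSC: from TOPC as TOSW from TOPW. -/
def ST_TOSC : Prop :=
  ∀ (K₀ K : Type) [Field K₀] [Field K] [CharZero K] [IsAlgClosed K] [Algebra K₀ K] (n w : ℕ)
    (h : Fin n → ℕ) (ψ : Matrix (Fin n) (Fin n) K₀) (P : Matrix.GeneralLinearGroup (Fin n) K)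
    (a : Submodule K₀ (Matrix (Fin n) (Fin n) K₀)), WideC w h → ψ.det ≠ 0 →
    ψ.transpose = (-1 : K₀) ^ w • ψ → Brk a →
    (∀ A ∈ a, ∃ c : K₀, A.transpose * ψ + ψ * A = c • ψ) → 2 * ∑ j, h j = n * w →
    (∀ U : Submodule K (Fin n → K),
      (∀ A ∈ a, ∀ v ∈ U, (A.map (algebraMap K₀ K)).mulVec v ∈ U) → U = ⊥ ∨ U = ⊤) →
    (P : Matrix (Fin n) (Fin n) K) * Matrix.diagonal (fun j => (h j : K)) *
      ((P⁻¹ : Matrix.GeneralLinearGroup (Fin n) K) : Matrix (Fin n) (Fin n) K) ∈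
        Submodule.span K {B | ∃ A ∈ a, B = A.map (algebraMap K₀ K)} →
    ∀ A : Matrix (Fin n) (Fin n) K₀, A.transpose * ψ + ψ * A = 0 → A ∈ a

/-- TOSH: from TOPH. -/
def ST_TOSH : Prop :=
  ∀ (n w : ℕ) (h : Fin n → ℕ) (ψ : Matrix (Fin n) (Fin n) ℚ)
    (P : Matrix.GeneralLinearGroup (Fin n) ℂ) (a : Submodule ℚ (Matrix (Fin n) (Fin n) ℚ)),
    WideH w h → ψ.det ≠ 0 → ψ.transpose = (-1 : ℚ) ^ w • ψ → Brk a →
    (∀ A ∈ a, ∃ c : ℚ, A.transpose * ψ + ψ * A = c • ψ) → 2 * ∑ j, h j = n * w →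
    (∀ U : Submodule ℂ (Fin n → ℂ),
      (∀ A ∈ a, ∀ v ∈ U, (A.map (algebraMap ℚ ℂ)).mulVec v ∈ U) → U = ⊥ ∨ U = ⊤) →
    (P : Matrix (Fin n) (Fin n) ℂ) * Matrix.diagonal (fun j => (h j : ℂ)) *
      ((P⁻¹ : Matrix.GeneralLinearGroup (Fin n) ℂ) : Matrix (Fin n) (Fin n) ℂ) ∈
        Submodule.span ℂ {B | ∃ A ∈ a, B = A.map (algebraMap ℚ ℂ)} →
    ((∀ M : Matrix (Fin n) (Fin n) ℚ,
      M.map (algebraMap ℚ ℂ) * ((P : Matrix (Fin n) (Fin n) ℂ) *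
        Matrix.diagonal (fun j => (h j : ℂ)) *
          ((P⁻¹ : Matrix.GeneralLinearGroup (Fin n) ℂ) : Matrix (Fin n) (Fin n) ℂ)) =
        ((P : Matrix (Fin n) (Fin n) ℂ) * Matrix.diagonal (fun j => (h j : ℂ)) *
          ((P⁻¹ : Matrix.GeneralLinearGroup (Fin n) ℂ) : Matrix (Fin n) (Fin n) ℂ)) *
            M.map (algebraMap ℚ ℂ) → ∃ c : ℚ, M = c • 1) ∨
      (Finset.univ.filter fun j => 2 * h j = w).card = 1) →
    ∀ A : Matrix (Fin n) (Fin n) ℚ, A.transpose * ψ + ψ * A = 0 → A ∈ a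

end MT
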