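import Pool.Agent.Helper21.WD.WT2
import Pool.Agent.Helper21.WE.Stmts

/-!
# CZC, CZH: the ideal `Cen` is zero
-/

set_option autoImplicit false

open Matrix

namespace MT

section dg

open Wtx

variable {K : Type} [Field K] {n : ℕ} (P : Matrix.GeneralLinearGroup (Fin n) K)

theorem dg_mul (s t : Fin n → ℤ) : dg P s * dg P t = dg P (fun j => s j * t j) := by
  unfold dg
  set p : Matrix (Fin n) (Fin n) K := (P : Matrix (Fin n) (Fin n) K)
  set q : Matrix (Fin n) (Fin n) K :=
    ((P⁻¹ : Matrix.GeneralLinearGroup (Fin n) K) : Matrix (Fin n) (Fin n) K)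
  have hqp : q * p = 1 := q_p P
  calc p * Matrix.diagonal (fun j => (s j : K)) * q * (p * Matrix.diagonal (fun j => (t j : K)) * q)
      = p * Matrix.diagonal (fun j => (s j : K)) * (q * p) *
          Matrix.diagonal (fun j => (t j : K)) * q := by simp only [Matrix.mul_assoc]
    _ = p * (Matrix.diagonal (fun j => (s j : K)) * Matrix.diagonal (fun j => (t j : K))) * q := by
          rw [hqp, Matrix.mul_one]; simp only [Matrix.mul_assoc]
    _ = _ := by
      rw [Matrix.diagonal_mul_diagonal]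
      congr 3
      funext j
      push_cast
      rfl

theorem dg_add (s t : Fin n → ℤ) : dg P s + dg P t = dg P (fun j => s j + t j) := by
  unfold dg
  rw [← Matrix.add_mul, ← Matrix.mul_add, Matrix.diagonal_add]
  congr 3
  funext j
  push_cast
  rfl

theorem dg_smul (c : ℤ) (s : Fin n → ℤ) : (c : K) • dg P s = dg P (fun j => c * s j) := by
  unfold dg
  rw [← Matrix.smul_mul, ← Matrix.mul_smul, ← Matrix.diagonal_smul]
  congr 3
  funext j
  push_cast
  rfl

theorem dg_one : dg P (fun _ => 1) = 1 := by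
  unfold dg
  have h1 : Matrix.diagonal (fun _ : Fin n => ((1 : ℤ) : K)) = 1 := by
    rw [Int.cast_one]
    exact Matrix.diagonal_one
  rw [h1, Matrix.mul_one, p_q P]

theorem dg_inj [CharZero K] {s t : Fin n → ℤ} (h : dg P s = dg P t) : s = t := by
  have h1 : ((P⁻¹ : Matrix.GeneralLinearGroup (Fin n) K) : Matrix (Fin n) (Fin n) K) * dg P s *
      (P : Matrix (Fin n) (Fin n) K) =
      ((P⁻¹ : Matrix.GeneralLinearGroup (Fin n) K) : Matrix (Fin n) (Fin n) K) * dg P t *
      (P : Matrix (Fin n) (Fin n) K) := by rw [h]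
  have h2 : ∀ s : Fin n → ℤ,
      ((P⁻¹ : Matrix.GeneralLinearGroup (Fin n) K) : Matrix (Fin n) (Fin n) K) * dg P s *
      (P : Matrix (Fin n) (Fin n) K) = Matrix.diagonal (fun j => (s j : K)) := by
    intro s
    unfold dg
    set p : Matrix (Fin n) (Fin n) K := (P : Matrix (Fin n) (Fin n) K)
    set q : Matrix (Fin n) (Fin n) K :=
      ((P⁻¹ : Matrix.GeneralLinearGroup (Fin n) K) : Matrix (Fin n) (Fin n) K)
    have hqp : q * p = 1 := q_p P
    calc q * (p * Matrix.diagonal (fun j => (s j : K)) * q) * p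
        = (q * p) * Matrix.diagonal (fun j => (s j : K)) * (q * p) := by
          simp only [Matrix.mul_assoc]
      _ = _ := by rw [hqp, Matrix.one_mul, Matrix.mul_one]
  rw [h2, h2] at h1
  funext j
  have h3 := congrFun (congrFun h1 j) j
  rw [Matrix.diagonal_apply_eq, Matrix.diagonal_apply_eq] at h3
  exact_mod_cast h3

theorem dg_key {s h : Fin n → ℤ} {N : ℤ} (hs : ∀ j, |s j| ≤ 1) (hN : ∀ j, s j = 1 → h j = N) :
    dg P h * (dg P s * dg P s + dg P s) = (N : K) • (dg P s * dg P s + dg P s) := by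
  rw [dg_mul, dg_add, dg_mul, dg_smul]
  congr 1
  funext j
  have h1 := abs_le.mp (hs j)
  rcases (show s j = 1 ∨ s j = 0 ∨ s j = -1 by omega) with h2 | h2 | h2
  · rw [h2, hN j h2]
  · rw [h2]; ring
  · rw [h2]; ring

end dg

/-- scalar matrices in `a` are zero -/
theorem scal_zero {K : Type} [Field K] [CharZero K] {n : ℕ} {ψ : Matrix (Fin n) (Fin n) K}
    {a : Submodule K (Matrix (Fin n) (Fin n) K)} (hn : 0 < n) (hirs : Irs ψ a) {c : K}
    (hc : c • (1 : Matrix (Fin n) (Fin n) K) ∈ a) : c = 0 := by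
  obtain ⟨hdet, -, -, hiso⟩ := hirs
  have h1 := hiso _ hc
  rw [Matrix.transpose_smul, Matrix.transpose_one, Matrix.smul_mul, Matrix.one_mul,
    Matrix.mul_smul, Matrix.mul_one, ← two_smul K, smul_smul] at h1
  rcases smul_eq_zero.mp h1 with h2 | h2
  · rcases mul_eq_zero.mp h2 with h3 | h3
    · exact absurd h3 two_ne_zero
    · exact h3
  · exfalso
    apply hdet
    rw [h2]
    have : Nonempty (Fin n) := ⟨⟨0, hn⟩⟩
    exact Matrix.det_zero

theorem cen_of_comm {K : Type} [Field K] {n : ℕ} {a C : Submodule K (Matrix (Fin n) (Fin n) K)}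
    {T : Matrix (Fin n) (Fin n) K} (hid : Idl a C) (hC : ∀ B ∈ C, T * B = B * T) :
    C ≤ Cen a T := by
  intro A hA
  refine ⟨hid.1 hA, fun B hB hTB => ?_⟩
  have h1 : A * B - B * A ∈ C := by
    have h2 := hid.2 B hB A hA
    have h3 := C.neg_mem h2
    rwa [neg_sub] at h3
  have h2 := hC _ h1
  have h3 := hC A hA
  have h4 : T * (A * B - B * A) - (A * B - B * A) * T =
      A * (T * B - B * T) - (T * B - B * T) * A := by
    have e1 : T * (A * B) = A * (T * B) := by
      rw [← Matrix.mul_assoc, h3, Matrix.mul_assoc]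
    have e2 : B * A * T = B * T * A := by
      rw [Matrix.mul_assoc, ← h3, Matrix.mul_assoc]
    rw [Matrix.mul_sub, Matrix.sub_mul, Matrix.mul_sub, Matrix.sub_mul, e1, e2]
    simp only [Matrix.mul_assoc]
    abel
  rw [h2, sub_self] at h4
  rcases hTB with h5 | h5
  · rw [h5] at h4
    exact sub_eq_zero.mp h4.symm
  · rw [h5, Matrix.mul_neg, Matrix.neg_mul, ← neg_sub'] at h4
    exact sub_eq_zero.mp (neg_eq_zero.mp h4.symm)

/-- CZC -/
theorem st_CZC (tns : ST_TNS) (krd : ST_KRD) (idl : ST_IDL) : ST_CZC := by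
  intro K _ _ _ n ε ψ P s h N a hsym hsign hirs hs hex hex0 hsT hH hN hcop A hA
  have hn : 0 < n := lt_of_le_of_lt (Nat.zero_le _) hex.choose.2
  obtain ⟨hid, -, hX⟩ := idl K n ε ψ P s a hsym hsign hirs hs hex hex0 hsT
  have hHC := hX _ hH ⟨(N : K), dg_key P hs hN⟩
  obtain ⟨r, u, e, R, t1, t2⟩ := tns K n ψ a _ hn hirs hid
  obtain ⟨X, hX'⟩ := t1 (dg P h) hHC
  have hr : r = 1 := hcop r ((krd K n r u e R P h).1 X hX')
  subst hr
  obtain ⟨Y, hY⟩ := t2 A fun x _ hxc => hxc A hA
  have h1 : (Matrix.kronecker Y (1 : Matrix (Fin u) (Fin u) K)).submatrix e e =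
      Y 0 0 • (1 : Matrix (Fin n) (Fin n) K) := by
    ext i j
    change Y (e i).1 (e j).1 * (1 : Matrix (Fin u) (Fin u) K) (e i).2 (e j).2 =
      Y 0 0 * (1 : Matrix (Fin n) (Fin n) K) i j
    have e1 : (e i).1 = 0 := Subsingleton.elim _ _
    have e2 : (e j).1 = 0 := Subsingleton.elim _ _
    rw [e1, e2]
    congr 1
    by_cases hij : i = j
    · subst hij
      rw [Matrix.one_apply_eq, Matrix.one_apply_eq]
    · rw [Matrix.one_apply_ne hij, Matrix.one_apply_ne]
      intro h3
      exact hij (e.injective (Prod.ext (by rw [e1, e2]) h3))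
  rw [h1] at hY
  have h2 : A = Y 0 0 • (1 : Matrix (Fin n) (Fin n) K) := by
    have h3 : (R : Matrix (Fin n) (Fin n) K) *
        (((R⁻¹ : Matrix.GeneralLinearGroup (Fin n) K) : Matrix (Fin n) (Fin n) K) * A *
          (R : Matrix (Fin n) (Fin n) K)) *
        ((R⁻¹ : Matrix.GeneralLinearGroup (Fin n) K) : Matrix (Fin n) (Fin n) K) =
        (R : Matrix (Fin n) (Fin n) K) * (Y 0 0 • (1 : Matrix (Fin n) (Fin n) K)) *
        ((R⁻¹ : Matrix.GeneralLinearGroup (Fin n) K) : Matrix (Fin n) (Fin n) K) := by rw [hY]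
    rw [Matrix.mul_smul, Matrix.smul_mul, Matrix.mul_one, Wtx.p_q R] at h3
    rw [← h3]
    symm
    calc (R : Matrix (Fin n) (Fin n) K) *
        (((R⁻¹ : Matrix.GeneralLinearGroup (Fin n) K) : Matrix (Fin n) (Fin n) K) * A *
          (R : Matrix (Fin n) (Fin n) K)) *
        ((R⁻¹ : Matrix.GeneralLinearGroup (Fin n) K) : Matrix (Fin n) (Fin n) K)
        = ((R : Matrix (Fin n) (Fin n) K) *
          ((R⁻¹ : Matrix.GeneralLinearGroup (Fin n) K) : Matrix (Fin n) (Fin n) K)) * A *
          ((R : Matrix (Fin n) (Fin n) K) *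
          ((R⁻¹ : Matrix.GeneralLinearGroup (Fin n) K) : Matrix (Fin n) (Fin n) K)) := by
            simp only [Matrix.mul_assoc]
      _ = A := by rw [Wtx.p_q R, Matrix.one_mul, Matrix.mul_one]
  have h3 : Y 0 0 • (1 : Matrix (Fin n) (Fin n) K) ∈ a := by
    rw [← h2]
    exact hA.1
  rw [h2, scal_zero hn hirs h3, zero_smul]

theorem dg_map {n : ℕ} (σ : ℂ ≃+* ℂ) (P : Matrix.GeneralLinearGroup (Fin n) ℂ)
    (s : Fin n → ℤ) :
    (dg P s).map σ = dg (Matrix.GeneralLinearGroup.map (σ : ℂ →+* ℂ) P) s := by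
  have h1 : ∀ X Y : Matrix (Fin n) (Fin n) ℂ, (X * Y).map σ = X.map σ * Y.map σ := by
    intro X Y
    exact Matrix.map_mul (f := (σ : ℂ →+* ℂ))
  unfold dg
  rw [h1, h1, ← map_inv]
  have h2 : (Matrix.diagonal (fun j => (s j : ℂ))).map σ =
      Matrix.diagonal (fun j => (s j : ℂ)) := by
    rw [Matrix.diagonal_map (map_zero σ)]
    congr 1
    funext j
    exact map_intCast σ (s j)
  rw [h2]
  rfl

theorem map_brk {n : ℕ} (σ : ℂ ≃+* ℂ) (B C : Matrix (Fin n) (Fin n) ℂ) :
    (B * C - C * B).map σ = B.map σ * C.map σ - C.map σ * B.map σ := by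
  have h1 : ∀ X Y : Matrix (Fin n) (Fin n) ℂ, (X * Y).map σ = X.map σ * Y.map σ := by
    intro X Y
    exact Matrix.map_mul (f := (σ : ℂ →+* ℂ))
  rw [Matrix.map_sub _ (fun x y => map_sub σ x y), h1, h1]

theorem cen_map {n : ℕ} {a : Submodule ℂ (Matrix (Fin n) (Fin n) ℂ)}
    (hσ : ∀ σ : ℂ ≃+* ℂ, ∀ A ∈ a, A.map σ ∈ a) (σ : ℂ ≃+* ℂ) {T A : Matrix (Fin n) (Fin n) ℂ}
    (hA : A ∈ Cen a T) : A.map σ ∈ Cen a (T.map σ) := by
  refine ⟨hσ σ A hA.1, fun B hB hB1 => ?_⟩
  obtain ⟨B', hB'⟩ : ∃ B', B' = B.map σ.symm := ⟨_, rfl⟩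
  have hBB : B = B'.map σ := by
    rw [hB']
    ext i j
    exact (σ.apply_symm_apply (B i j)).symm
  have hinj : ∀ X Y : Matrix (Fin n) (Fin n) ℂ, X.map σ = Y.map σ → X = Y := by
    intro X Y h
    ext i j
    exact σ.injective (congrFun (congrFun h i) j)
  have hmul : ∀ X Y : Matrix (Fin n) (Fin n) ℂ, (X * Y).map σ = X.map σ * Y.map σ := by
    intro X Y
    exact Matrix.map_mul (f := (σ : ℂ →+* ℂ))
  have hB'a : B' ∈ a := by
    rw [hB']
    exact hσ σ.symm B hB
  have h1 := hA.2 B' hB'a (by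
    rcases hB1 with h | h
    · left
      apply hinj
      rw [map_brk, ← hBB]
      exact h
    · right
      apply hinj
      rw [map_brk, ← hBB, h]
      ext i j
      show -(B i j) = σ (-(B' i j))
      rw [map_neg, hBB]
      rfl)
  rw [hBB, ← hmul, ← hmul, h1]

/-- CZH -/
theorem st_CZH (tns : ST_TNS) (krd : ST_KRD) (tri : ST_TRI) (idl : ST_IDL) (dsc : ST_DSC) :
    ST_CZH := by
  intro n ε ψ P s h N a hsym hsign hirs hs hex hex0 hsT hH hN hN' hσ hE hsml hne
  have hn : 0 < n := lt_of_le_of_lt (Nat.zero_le _) hex.choose.2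
  obtain ⟨-, -, hX⟩ := idl ℂ n ε ψ P s a hsym hsign hirs hs hex hex0 hsT
  have hHC := hX _ hH ⟨(N : ℂ), dg_key P hs hN⟩
  have hmain : ∀ σ : ℂ ≃+* ℂ, Cen a ((dg P s).map σ) ≤ Cen a (dg P s) := by
    intro σ
    have hsT' : dg (Matrix.GeneralLinearGroup.map (σ : ℂ →+* ℂ) P) s ∈ a := by
      rw [← dg_map]
      exact hσ σ _ hsT
    have hH' : dg (Matrix.GeneralLinearGroup.map (σ : ℂ →+* ℂ) P) h ∈ a := by
      rw [← dg_map]
      exact hσ σ _ hH
    rw [dg_map]
    obtain ⟨hid', -, hX'⟩ := idl ℂ n ε ψ (Matrix.GeneralLinearGroup.map (σ : ℂ →+* ℂ) P) s a hsym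
      hsign hirs hs hex hex0 hsT'
    rcases tri ℂ n ψ P s a _ hn hirs hid' hs hsT with h1 | h1 | ⟨h1, h2⟩
    · exact cen_of_comm hid' h1
    · exfalso
      obtain ⟨r, u, e, R, t1, t2⟩ := tns ℂ n ψ a _ hn hirs hid'
      obtain ⟨X, hXX⟩ := t1 _ (hX' _ hH' ⟨(N : ℂ), dg_key _ hs hN⟩)
      have hr := (krd ℂ n r u e R _ h).1 X hXX
      let C' : Submodule ℂ (Matrix (Fin n) (Fin n) ℂ) :=
        { carrier := {x | x ∈ a ∧ ∀ B ∈ Cen a (dg (Matrix.GeneralLinearGroup.map
            (σ : ℂ →+* ℂ) P) s), x * B = B * x}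
          add_mem' := by
            rintro x y ⟨hx, hx'⟩ ⟨hy, hy'⟩
            exact ⟨a.add_mem hx hy, fun B hB => by
              rw [Matrix.add_mul, Matrix.mul_add, hx' B hB, hy' B hB]⟩
          zero_mem' := ⟨a.zero_mem, fun B _ => by rw [Matrix.zero_mul, Matrix.mul_zero]⟩
          smul_mem' := by
            rintro c x ⟨hx, hx'⟩
            exact ⟨a.smul_mem c hx, fun B hB => by
              rw [Matrix.smul_mul, Matrix.mul_smul, hx' B hB]⟩ }
      have hidC : Idl a C' := by
        refine ⟨fun x hx => hx.1, fun Z hZ x hx => ⟨hirs.2.1 Z hZ x hx.1, fun B hB => ?_⟩⟩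
        have e1 := hx.2 B hB
        have e2 := hx.2 _ (hid'.2 Z hZ B hB)
        have e3 : Z * (x * B) = Z * (B * x) := by rw [e1]
        have e4 : x * B * Z = B * x * Z := by rw [e1]
        have e5 : (Z * x - x * Z) * B - B * (Z * x - x * Z) =
            (Z * (x * B) - Z * (B * x)) - (x * (Z * B - B * Z) - (Z * B - B * Z) * x) -
              (x * B * Z - B * x * Z) := by
          noncomm_ring
        rw [e2, e3, e4, sub_self, sub_self, sub_self, sub_self, sub_self] at e5
        exact sub_eq_zero.mp e5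
      have hC' : C' ≤ Cen a (dg P s) :=
        cen_of_comm hidC fun B hB => h1 B hB.1 hB.2
      obtain ⟨Y, hYY⟩ := t2 (dg P h) fun x hx hxc => (hHC x (hC' ⟨hx, hxc⟩)).symm
      have hu := (krd ℂ n r u e R _ h).2 Y hYY
      have hru : n = r * u := by
        have h3 := Fintype.card_congr e
        rw [Fintype.card_fin, Fintype.card_prod, Fintype.card_fin, Fintype.card_fin] at h3
        exact h3
      have h4 := hsml r hr
      have h5 := hsml u hu
      have h6 : r ^ 2 * u ^ 2 < n * n := by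
        calc r ^ 2 * u ^ 2 ≤ n * u ^ 2 := Nat.mul_le_mul_right _ h4.le
          _ < n * n := Nat.mul_lt_mul_of_pos_left h5 hn
      have h7 : r ^ 2 * u ^ 2 = n * n := by
        rw [hru]
        ring
      omega
    · exfalso
      rcases hne with h3 | ⟨i, j, hi, hj, hij, hij'⟩
      · exact h3 h1
      · have hDa : dg P (fun j => h j - N * s j) ∈ a := by
          have e1 : dg P (fun j => h j - N * s j) = dg P h + ((-N : ℤ) : ℂ) • dg P s := by
            rw [dg_smul, dg_add]
            congr 1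
            funext j
            ring
          rw [e1]
          exact a.add_mem hH (a.smul_mem _ hsT)
        have hz : ∀ j, s j * (h j - N * s j) = 0 := by
          intro j
          have h4 := abs_le.mp (hs j)
          rcases (show s j = 1 ∨ s j = 0 ∨ s j = -1 by omega) with h5 | h5 | h5
          · rw [h5, hN j h5]; ring
          · rw [h5]; ring
          · rw [h5, hN' j h5]; ring
        have hzero : dg P (fun _ : Fin n => (0 : ℤ)) = 0 := by
          unfold dg
          simp
        obtain ⟨c, hc⟩ := h2 _ hDa (by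
          rw [dg_mul, ← hzero]
          congr 1
          funext j
          exact hz j) (by
          rw [dg_mul, ← hzero]
          congr 1
          funext j
          rw [mul_comm]
          exact hz j)
        have h4 : ∀ j, s j = 0 → ((h j : ℂ)) ^ 2 = c := by
          intro j hj
          have h5 : ((P⁻¹ : Matrix.GeneralLinearGroup (Fin n) ℂ) : Matrix (Fin n) (Fin n) ℂ) *
              (dg P (fun j => h j - N * s j) * dg P (fun j => h j - N * s j)) *
              (P : Matrix (Fin n) (Fin n) ℂ) =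
              ((P⁻¹ : Matrix.GeneralLinearGroup (Fin n) ℂ) : Matrix (Fin n) (Fin n) ℂ) *
              (c • (1 - dg P s * dg P s)) * (P : Matrix (Fin n) (Fin n) ℂ) := by rw [hc]
          have h6 : ∀ s : Fin n → ℤ,
              ((P⁻¹ : Matrix.GeneralLinearGroup (Fin n) ℂ) : Matrix (Fin n) (Fin n) ℂ) * dg P s *
              (P : Matrix (Fin n) (Fin n) ℂ) = Matrix.diagonal (fun j => (s j : ℂ)) := by
            intro s
            unfold dg
            set p : Matrix (Fin n) (Fin n) ℂ := (P : Matrix (Fin n) (Fin n) ℂ)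
            set q : Matrix (Fin n) (Fin n) ℂ :=
              ((P⁻¹ : Matrix.GeneralLinearGroup (Fin n) ℂ) : Matrix (Fin n) (Fin n) ℂ)
            have hqp : q * p = 1 := Wtx.q_p P
            calc q * (p * Matrix.diagonal (fun j => (s j : ℂ)) * q) * p
                = (q * p) * Matrix.diagonal (fun j => (s j : ℂ)) * (q * p) := by
                  simp only [Matrix.mul_assoc]
              _ = _ := by rw [hqp, Matrix.one_mul, Matrix.mul_one]
          rw [dg_mul, dg_mul, h6, Matrix.mul_smul, Matrix.smul_mul, Matrix.mul_sub,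
            Matrix.sub_mul, h6, Matrix.mul_one, Wtx.q_p P] at h5
          have h7 := congrFun (congrFun h5 j) j
          rw [Matrix.diagonal_apply_eq, Matrix.smul_apply, Matrix.sub_apply, Matrix.one_apply_eq,
            Matrix.diagonal_apply_eq, hj] at h7
          push_cast at h7
          simp only [mul_zero, sub_zero, smul_eq_mul, mul_one] at h7
          rw [← h7]
          ring
        have h5 : ((h i : ℂ)) ^ 2 = ((h j : ℂ)) ^ 2 := by rw [h4 i hi, h4 j hj]
        have h6 : (h i) ^ 2 = (h j) ^ 2 := by exact_mod_cast h5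
        have h7 : (h i - h j) * (h i + h j) = 0 := by ring_nf; rw [h6]; ring
        rcases mul_eq_zero.mp h7 with h8 | h8
        · exact hij (sub_eq_zero.mp h8)
        · exact hij' h8
  intro A hA
  refine dsc n (Cen a (dg P s)) (fun σ A hA => hmain σ (cen_map hσ σ hA)) ?_ A hA
  intro M hM
  have h1 := hHC _ hM
  obtain ⟨c, hc⟩ := hE M h1.symm
  have h2 : M.map (algebraMap ℚ ℂ) = (c : ℂ) • 1 := by
    rw [hc]
    ext i j
    by_cases hij : i = j
    · subst hij
      simp
    · simp [Matrix.one_apply_ne hij]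
  have h3 := hM.1
  rw [h2] at h3
  have h4 := scal_zero hn hirs h3
  have h5 : c = 0 := by exact_mod_cast h4
  rw [hc, h5, zero_smul]

end MT
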