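import Pool.Agent.Helper21.WD.StmtsMR
import Pool.Agent.Helper21.WE.Stmts

/-!
# T15: statements for realisations of motives
-/

set_option autoImplicit false

open NumberField MU MT

namespace MR

/-- FUL: the Lie algebra is large. -/
def ST_FULN : Prop :=
  ∀ (F : Type) [Field F] [NumberField F] (n w : ℕ) (h : Fin n → ℕ)
    (M : RMot F n w h) (l : ℕ) [Fact l.Prime], 0 < w → M.AIrrL l → (WideC w h ∨ M.IsoEigM l) →
      ∀ H : Subgroup (Gal F), IsOpen (H : Set (Gal F)) → ∀ A : Matrix (Fin n) (Fin n) ℚ_[l],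
        A.transpose * bas ℚ_[l] M.ψ + bas ℚ_[l] M.ψ * A = 0 → A ∈ LieZ (H.map (M.ρ l))

/-- HSG: the Mumford-Tate group. -/
def ST_HSGN : Prop :=
  ∀ (F : Type) [Field F] [NumberField F] (n w : ℕ) (h : Fin n → ℕ)
    (M : RMot F n w h), 0 < w → WideH w h → M.AIrrH → ∀ (K : Type) [Field K] [CharZero K],
      M.Gsigma K = SimC w M.ψ K

/-- MAIN: the theorem. -/
def ST_MAINN : Prop :=
  ∀ (F : Type) [Field F] [NumberField F] (n w : ℕ) (h : Fin n → ℕ)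
    (M : RMot F n w h), 0 < w →
    (M.AIrrH → WideH w h → ∀ (K : Type) [Field K] [CharZero K],
      M.Gsigma K = SimC w M.ψ K ∧ M.Gsigma K ⊆ M.Gmot K ∧ M.Gmot K ⊆ Sim M.ψ K) ∧
    ∀ (l : ℕ) [Fact l.Prime], M.AIrrL l → (WideC w h ∨ M.IsoEigM l) →
      ∀ (K : Type) [Field K] [Algebra ℚ_[l] K],
      (∀ H : Subgroup (Gal F), IsOpen (H : Set (Gal F)) → SimC w M.ψ K ⊆ ZC (M.ρ l '' H) K) ∧
      M.Gl0 l K = SimC w M.ψ K ∧ M.Gl0 l K ⊆ M.Gl l K ∧ M.Gl l K ⊆ M.Gmot K ∧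
      M.Gmot K ⊆ Sim M.ψ K ∧ (Odd w ∨ Odd n → SimC w M.ψ K = Sim M.ψ K) ∧
      M.Gsigma K ⊆ M.Gl0 l K ∧ (M.AIrrH → WideH w h → M.Gl0 l K = M.Gsigma K) ∧
      ((∀ (a b : ℕ) (t : Tensor n a b ℚ), M.IsHodge t → ∃ H : Subgroup (Gal F),
        IsOpen (H : Set (Gal F)) ∧
          ∀ g ∈ H, act (M.ρ l g) (t.base ℚ_[l]) = t.base ℚ_[l]) → M.Gl0 l K = M.Gsigma K)

end MR
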