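import Pool.Agent.Helper21.WE.Stmts

/-!
# An idempotent of rank one
-/

set_option autoImplicit false

open Matrix

namespace MT

/-- an idempotent of rank one -/
theorem rank_one {K I : Type} [Field K] [Fintype I] [DecidableEq I]
    (F : Submodule K (Matrix I I K)) (Λ : Set (Matrix I I K)) (f : Matrix I I K) (hf : f ∈ F)
    (hff : f * f = f) (hf0 : f ≠ 0) (hfx : ∀ x ∈ F, ∃ c : K, f * x * f = c • f)
    (hL : ∀ U : Submodule K (I → K), (∀ z ∈ Λ, ∀ v ∈ U, z.mulVec v ∈ U) → U = ⊥ ∨ U = ⊤)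
    (hcom : ∀ z ∈ Λ, ∀ x ∈ F, z * x - x * z ∈ F)
    (hfl : ∀ z ∈ Λ, ∀ x ∈ F, ∃ y ∈ F, x * z * f = y * f) : f.rank = 1 := by
  obtain ⟨w₀, hw₀⟩ : ∃ w₀ : I → K, f.mulVec w₀ ≠ 0 := by
    by_contra hc
    push Not at hc
    apply hf0
    ext i j
    have h1 := congrFun (hc (Pi.single j 1)) i
    rw [Matrix.mulVec_single_one] at h1
    exact h1
  set w := f.mulVec w₀ with hw
  have hfw : f.mulVec w = w := by rw [hw, Matrix.mulVec_mulVec, hff]
  let U : Submodule K (I → K) :=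
    { carrier := {v | ∃ g ∈ F, v = g.mulVec w}
      add_mem' := by
        rintro _ _ ⟨g, hg, rfl⟩ ⟨g', hg', rfl⟩
        exact ⟨g + g', F.add_mem hg hg', by rw [Matrix.add_mulVec]⟩
      zero_mem' := ⟨0, F.zero_mem, by rw [Matrix.zero_mulVec]⟩
      smul_mem' := by
        rintro c _ ⟨g, hg, rfl⟩
        exact ⟨c • g, F.smul_mem c hg, by rw [Matrix.smul_mulVec]⟩ }
  have hU : U = ⊤ := by
    rcases hL U (by
      rintro z hz _ ⟨g, hg, rfl⟩
      obtain ⟨y, hy, hy'⟩ := hfl z hz g hg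
      refine ⟨(z * g - g * z) + y, F.add_mem (hcom z hz g hg) hy, ?_⟩
      have h1 : (g * z).mulVec w = y.mulVec w := by
        calc (g * z).mulVec w = (g * z).mulVec (f.mulVec w) := by rw [hfw]
          _ = (y * f).mulVec w := by rw [Matrix.mulVec_mulVec, hy']
          _ = y.mulVec w := by rw [← Matrix.mulVec_mulVec, hfw]
      rw [Matrix.add_mulVec, Matrix.sub_mulVec, h1, Matrix.mulVec_mulVec]
      abel) with h | h
    · exfalso
      apply hw₀
      have h1 : w ∈ U := ⟨f, hf, hfw.symm⟩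
      rw [h, Submodule.mem_bot] at h1
      exact h1
    · exact h
  have hr : LinearMap.range f.mulVecLin = Submodule.span K {w} := by
    apply le_antisymm
    · rintro _ ⟨v, rfl⟩
      have h1 : v ∈ U := by rw [hU]; exact Submodule.mem_top
      obtain ⟨g, hg, rfl⟩ := h1
      obtain ⟨c, hc⟩ := hfx g hg
      rw [Submodule.mem_span_singleton]
      refine ⟨c, ?_⟩
      show c • w = f.mulVec (g.mulVec w)
      calc c • w = (c • f).mulVec w := by rw [Matrix.smul_mulVec, hfw]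
        _ = (f * g * f).mulVec w := by rw [hc]
        _ = (f * g).mulVec (f.mulVec w) := (Matrix.mulVec_mulVec w (f * g) f).symm
        _ = (f * g).mulVec w := by rw [hfw]
        _ = f.mulVec (g.mulVec w) := (Matrix.mulVec_mulVec w f g).symm
    · rw [Submodule.span_singleton_le_iff_mem]
      exact ⟨w, hfw⟩
  rw [Matrix.rank, hr, finrank_span_singleton hw₀]

/-- a variant -/
theorem rank_one' {K I : Type} [Field K] [Fintype I] [DecidableEq I]
    (F : Submodule K (Matrix I I K)) (Λ : Set (Matrix I I K)) (f : Matrix I I K) (hf : f ∈ F)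
    (hff : f * f = f) (hf0 : f ≠ 0) (hfx : ∀ x ∈ F, ∃ c : K, f * x * f = c • f)
    (hL : ∀ U : Submodule K (I → K), (∀ z ∈ Λ, ∀ v ∈ U, z.mulVec v ∈ U) → U = ⊥ ∨ U = ⊤)
    (hcom : ∀ z ∈ Λ, ∀ x ∈ F, z * x - x * z ∈ F)
    (hmul : ∀ x ∈ F, ∀ y ∈ F, x * y ∈ F)
    (hfl : ∀ z ∈ Λ, f * z ∈ F) : f.rank = 1 := by
  refine rank_one F Λ f hf hff hf0 hfx hL hcom fun z hz x hx => ?_
  refine ⟨x * (f * z) + x * (z * f - f * z),
    F.add_mem (hmul x hx _ (hfl z hz)) (hmul x hx _ (hcom z hz f hf)), ?_⟩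
  have h1 : x * (f * z) + x * (z * f - f * z) = x * z * f := by
    rw [Matrix.mul_sub, ← Matrix.mul_assoc, ← Matrix.mul_assoc]
    abel
  rw [h1, Matrix.mul_assoc (x * z) f f, hff]

end MT
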