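import Pool.Agent.Helper21.WD.GC5
import Pool.Agent.Helper21.WE.RK0

/-!
# GC5N: a torus on the top piece, without coprimality
-/

set_option autoImplicit false

open Matrix

namespace MT

namespace GC5x

open GCDx (blk_apply blk_mul blk_zero2 cmp_ne cmp_at Hom hom_cmp)

variable {K : Type} [Field K] {n : ℕ}

variable {s d : Fin n → ℤ} {a : Submodule K (Matrix (Fin n) (Fin n) K)} {u z : ℤ}

/-- elements which are zero on the middle piece -/
theorem BmZ (D : Dat s d a) {y : Matrix {j // Q s j} {j // P s d u j} K}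
    (hy : y ∈ Bm s d a u) {Z : Matrix (Fin n) (Fin n) K} (hZ : Z ∈ a)
    (hZ0 : ∀ i j, s i = 0 → Z i j = 0) :
    y * GCDx.blk (P s d u) (P s d u) Z ∈ Bm s d a u := by
  obtain ⟨Y, hY, gY, rfl⟩ := Bm_hom D hy
  refine Submodule.mem_map.mpr ⟨Y * Z - Z * Y, D.brk _ hY _ hZ, ?_⟩
  rw [map_sub, blk_mul (Q s) (P s d u) (P s d u) Y Z, blk_zero2 (Q s) (P s d u) Z Y, sub_zero]
  · intro i j k hi _ hik _
    exact hik (hZ0 i k hi)
  · intro i j k hi _ hik _
    obtain ⟨g1, g2⟩ := gY i k hik
    have hi' : s i = 0 := hi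
    have h0 := D.sd i hi'
    exact ⟨by omega, by omega⟩

theorem GsZ (D : Dat s d a) {ε : Matrix {j // P s d z j} {j // P s d u j} K}
    (hε : ε ∈ G s d a z u) {Z : Matrix (Fin n) (Fin n) K} (hZ : Z ∈ a)
    (hZ0 : ∀ i j, s i = 0 → Z i j = 0) :
    ε * GCDx.blk (P s d u) (P s d u) Z ∈ G s d a z u := by
  induction hε using Submodule.span_induction with
  | mem m hm =>
    obtain ⟨x, hx, y, hy, rfl⟩ := hm
    rw [Matrix.mul_assoc]
    exact Submodule.subset_span ⟨x, hx, _, BmZ D hy hZ hZ0, rfl⟩
  | zero => rw [Matrix.zero_mul]; exact Submodule.zero_mem _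
  | add u v _ _ hu hv => rw [Matrix.add_mul]; exact Submodule.add_mem _ hu hv
  | smul c u _ hu => rw [Matrix.smul_mul]; exact Submodule.smul_mem _ c hu

theorem FsZ (D : Dat s d a) {x : Matrix {j // P s d u j} {j // P s d u j} K}
    (hx : x ∈ F s d a u z) {Z : Matrix (Fin n) (Fin n) K} (hZ : Z ∈ a)
    (hZ0 : ∀ i j, s i = 0 → Z i j = 0) :
    x * GCDx.blk (P s d u) (P s d u) Z ∈ F s d a u z := by
  induction hx using Submodule.span_induction with
  | mem m hm =>
    obtain ⟨x, hx, y, hy, rfl⟩ := hm
    rw [Matrix.mul_assoc]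
    exact Submodule.subset_span ⟨x, hx, _, GsZ D hy hZ hZ0, rfl⟩
  | zero => rw [Matrix.zero_mul]; exact Submodule.zero_mem _
  | add u v _ _ hu hv => rw [Matrix.add_mul]; exact Submodule.add_mem _ hu hv
  | smul c u _ hu => rw [Matrix.smul_mul]; exact Submodule.smul_mem _ c hu

/-- `f L ≤ F` -/
theorem fL [CharZero K] [IsAlgClosed K] (gen : ST_GEN0) {ε : K} {ψ : Matrix (Fin n) (Fin n) K}
    (gs : GrD ε ψ s a) (hcz : Cz s a) (D : Dat s d a) (h1 : u ≠ z)
    {f : Matrix {j // P s d u j} {j // P s d u j} K} (hf : f ∈ F s d a u z)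
    {m : Matrix {j // P s d u j} {j // P s d u j} K} (hm : m ∈ Ls s d a u) :
    f * m ∈ F s d a u z := by
  obtain ⟨X, hX, gX, rfl⟩ := Ls_hom D hm
  have hX0 : cmp s 0 X = X := by
    ext i j
    by_cases h : s i - s j = 0
    · rw [cmp_at h]
    · unfold cmp
      rw [Matrix.of_apply, if_neg h]
      by_contra hne
      exact h (gX i j (Ne.symm hne)).1
  have h3 := gen K n ε ψ s a gs (fun j => abs_le.mpr (D.s1 j)) hcz X hX hX0
  clear hX0 gX hm hX
  induction h3 using Submodule.span_induction with
  | mem X hX =>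
    obtain ⟨B, hB, C, hC, hBC, rfl⟩ := hX
    rcases hBC with ⟨hB1, hC1⟩ | ⟨hB1, hC1⟩
    · have e0 : GCDx.blk (P s d u) (P s d u) (C * B) = 0 := by
        refine blk_zero2 _ _ _ _ fun i j k hi hj _ hkj => ?_
        rw [← hB1] at hkj
        have h1 := (cmp_ne hkj).1
        have h2 := D.s1 k
        have hj' : s j = 1 := hj.1
        omega
      rw [map_sub, e0, sub_zero, blk_mul (P s d u) (P s d u) (Q s) B C]
      · exact FGu D h1 hf (Submodule.subset_span
          ⟨_, Submodule.mem_map_of_mem hB, _, Submodule.mem_map_of_mem hC, rfl⟩)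
      · intro i j k hi _ hik _
        rw [← hB1] at hik
        have h1 := (cmp_ne hik).1
        have hi' : s i = 1 := hi.1
        show s k = 0
        omega
    · refine FsZ D hf (D.brk _ hB _ hC) fun i j hi => ?_
      rw [Matrix.sub_apply, Matrix.mul_apply, Matrix.mul_apply]
      have e1 : ∑ k, B i k * C k j = 0 := by
        refine Finset.sum_eq_zero fun k _ => ?_
        by_contra hne
        have h4 := left_ne_zero_of_mul hne
        rw [← hB1] at h4
        have h5 := (cmp_ne h4).1
        have h6 := D.s1 k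
        omega
      have e2 : ∑ k, C i k * B k j = 0 := by
        refine Finset.sum_eq_zero fun k _ => ?_
        by_contra hne
        have h4 := left_ne_zero_of_mul hne
        rw [← hC1] at h4
        have h5 := (cmp_ne h4).1
        have h6 := D.s1 k
        omega
      rw [e1, e2, sub_zero]
  | zero => rw [map_zero, Matrix.mul_zero]; exact Submodule.zero_mem _
  | add x y _ _ hx hy => rw [map_add, Matrix.mul_add]; exact Submodule.add_mem _ hx hy
  | smul c x _ hx => rw [map_smul, Matrix.mul_smul]; exact Submodule.smul_mem _ c hx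

end GC5x

open GC5x

theorem st_GC5N (alg : ST_ALG) (rk1 : ST_RK1) (spb : ST_SPB) (tpi : ST_TPI)
    (fin : ST_FIN) (gra : ST_GRA) (v0i : ST_V0I) (gen : ST_GEN0) : ST_GC5N := by
  intro K _ _ _ n ε ψ s d a gs gd hs1 hex hex0 hsd htwo hcz
  classical
  have D : Dat s d a := ⟨gs.brk, gs.comp, gd.comp, fun j => abs_le.mp (hs1 j), hsd⟩
  obtain ⟨sp1, sp2⟩ := spb K n ε ψ s a gs hs1 hex
  obtain ⟨i₀, j₀, hi₀, hj₀, hne⟩ := htwo
  -- the highest weight
  obtain ⟨i₁, hi₁, hmax⟩ : ∃ i, s i = 1 ∧ ∀ j, s j = 1 → d j ≤ d i := by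
    obtain ⟨i, hi, hm⟩ := Finset.exists_max_image (Finset.univ.filter fun j => s j = 1) d
      ⟨i₀, by simpa using hi₀⟩
    refine ⟨i, by simpa using hi, fun j hj => hm j (by simpa using hj)⟩
  set u := d i₁ with hu
  obtain ⟨j₁, hj₁, hzu⟩ : ∃ j, s j = 1 ∧ u ≠ d j := by
    by_cases h : u = d i₀
    · exact ⟨j₀, hj₀, fun h' => hne (h.symm.trans h')⟩
    · exact ⟨i₀, hi₀, h⟩
  set z := d j₁ with hz
  have hPu : ∃ j, P s d u j := ⟨i₁, hi₁, rfl⟩
  -- irreducibility
  obtain ⟨M, hM⟩ : ∃ M : ℤ, ∀ j, |d j| < M := by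
    refine ⟨(∑ j, |d j|) + 1, fun j => ?_⟩
    have h1 : |d j| ≤ ∑ j, |d j| := Finset.single_le_sum (f := fun j => |d j|)
      (fun j _ => abs_nonneg (d j)) (Finset.mem_univ j)
    omega
  have hL := Lirr (s := s) (d := d) tpi gs.brk gs.irr (2 * M) (2 * M + u)
    (gra K n a (fun j => 2 * M * s j + d j) (by
      intro A hA
      have hsum : ∀ (e : Fin n → ℤ), (∀ x, cmp e x A ∈ a) →
          Matrix.diagonal (fun j => (e j : K)) * A - A * Matrix.diagonal (fun j => (e j : K)) ∈
            a := by
        intro e he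
        have h1 : Matrix.diagonal (fun j => (e j : K)) * A -
            A * Matrix.diagonal (fun j => (e j : K)) =
            ∑ x ∈ (Finset.univ.image fun p : Fin n × Fin n => e p.1 - e p.2),
              (x : K) • cmp e x A := by
          ext i j
          rw [Matrix.sub_apply, Matrix.diagonal_mul, Matrix.mul_diagonal, Matrix.sum_apply,
            Finset.sum_eq_single (e i - e j)]
          · rw [Matrix.smul_apply, GCDx.cmp_at rfl, smul_eq_mul]
            push_cast
            ring
          · intro x _ hx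
            rw [Matrix.smul_apply]
            unfold cmp
            rw [Matrix.of_apply, if_neg fun h => hx h.symm, smul_zero]
          · intro hc
            exact absurd (Finset.mem_image_of_mem (fun p : Fin n × Fin n => e p.1 - e p.2)
              (Finset.mem_univ (i, j))) hc
        rw [h1]
        exact Submodule.sum_mem _ fun x _ => Submodule.smul_mem _ _ (he x)
      have h2 := Submodule.add_mem _ (Submodule.smul_mem _ ((2 * M : ℤ) : K)
        (hsum s (gs.comp A hA))) (hsum d (gd.comp A hA))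
      convert h2 using 1
      ext i j
      simp only [Matrix.sub_apply, Matrix.add_apply, Matrix.smul_apply, Matrix.diagonal_mul,
        Matrix.mul_diagonal, smul_eq_mul]
      push_cast
      ring)) u (by ring) (by
      intro j
      have h1 := abs_lt.mp (hM j)
      have h2 := abs_lt.mp (hM i₁)
      rcases (show s j = 1 ∨ s j = 0 ∨ s j = -1 by have := D.s1 j; omega) with h | h | h
      · have := hmax j h
        rw [h]
        omega
      · rw [h]
        omega
      · rw [h]
        omega) (by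
      intro j hj
      have h1 := abs_lt.mp (hM j)
      have h2 := abs_lt.mp (hM i₁)
      rcases (show s j = 1 ∨ s j = 0 ∨ s j = -1 by have := D.s1 j; omega) with h | h | h
      · exact h
      · rw [h] at hj
        omega
      · rw [h] at hj
        omega)
  -- spanning and kernels
  have tS := top_span tpi gs.irr D sp2 hex0
  have tK := top_ker tpi gs.irr D sp1 hex0
  have mS := mid_span v0i tpi gs.irr D sp1 hex0 u hPu
  have mK := mid_ker v0i tpi gs.irr D sp2 hex0 u hPu
  -- `V_1^v = G v u V_1^u`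
  have gS : ∀ (v : ℤ) (w : {j // P s d v j} → K), w ∈ Submodule.span K
      {w | ∃ g ∈ G s d a v u, ∃ u' : {j // P s d u j} → K, w = g.mulVec u'} := by
    intro v w
    have h1 := tS v w
    induction h1 using Submodule.span_induction with
    | mem w hw =>
      obtain ⟨x, hx, w', rfl⟩ := hw
      have h2 := mS w'
      induction h2 using Submodule.span_induction with
      | mem w hw =>
        obtain ⟨y, hy, w'', rfl⟩ := hw
        refine Submodule.subset_span ⟨x * y, Submodule.subset_span ⟨x, hx, y, hy, rfl⟩, w'', ?_⟩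
        rw [Matrix.mulVec_mulVec]
      | zero => rw [Matrix.mulVec_zero]; exact Submodule.zero_mem _
      | add x y _ _ hx hy => rw [Matrix.mulVec_add]; exact Submodule.add_mem _ hx hy
      | smul c x _ hx => rw [Matrix.mulVec_smul]; exact Submodule.smul_mem _ c hx
    | zero => exact Submodule.zero_mem _
    | add x y _ _ hx hy => exact Submodule.add_mem _ hx hy
    | smul c x _ hx => exact Submodule.smul_mem _ c hx
  have gK : ∀ (v : ℤ) (w : {j // P s d v j} → K),
      (∀ g ∈ G s d a u v, g.mulVec w = 0) → w = 0 := by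
    intro v w hw
    refine tK v w fun y hy => mK _ fun x hx => ?_
    rw [Matrix.mulVec_mulVec]
    exact hw _ (Submodule.subset_span ⟨x, hx, y, hy, rfl⟩)
  have hF : F s d a u z ≠ ⊥ := by
    intro h
    have h1 : ∀ x ∈ G s d a u z, ∀ y ∈ G s d a z u, x * y = 0 := by
      intro x hx y hy
      have h2 : x * y ∈ F s d a u z := Submodule.subset_span ⟨x, hx, y, hy, rfl⟩
      rw [h, Submodule.mem_bot] at h2
      exact h2
    have h2 : ∀ w : {j // P s d z j} → K, w = 0 := by
      intro w
      refine gK z w fun g hg => ?_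
      have h3 := gS z w
      induction h3 using Submodule.span_induction with
      | mem w hw =>
        obtain ⟨y, hy, w', rfl⟩ := hw
        rw [Matrix.mulVec_mulVec, h1 g hg y hy, Matrix.zero_mulVec]
      | zero => rw [Matrix.mulVec_zero]
      | add x y _ _ hx hy => rw [Matrix.mulVec_add, hx, hy, add_zero]
      | smul c x _ hx => rw [Matrix.mulVec_smul, hx, smul_zero]
    have h3 := congrFun (h2 (Pi.single ⟨j₁, hj₁, rfl⟩ 1)) ⟨j₁, hj₁, rfl⟩
    rw [Pi.single_eq_same] at h3
    exact one_ne_zero h3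
  obtain ⟨f, hf, hff, hf0, hfx, hfs, hfk⟩ := alg K {j // P s d u j} (F s d a u z)
    (Ls s d a u : Set (Matrix {j // P s d u j} {j // P s d u j} K))
    (fun x hx y hy => FF D hzu hx hy) (fun m hm x hx => LF D hm hx) hL hF
  -- spanning and kernels, with `f`
  have mSf : ∀ w : {j // Q s j} → K, w ∈ Submodule.span K
      {w | ∃ y ∈ Bm s d a u, ∃ u' : {j // P s d u j} → K, w = (y * f).mulVec u'} := by
    intro w
    have h1 := mS w
    induction h1 using Submodule.span_induction with
    | mem w hw =>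
      obtain ⟨g, hg, w', rfl⟩ := hw
      have h2 := hfs w'
      induction h2 using Submodule.span_induction with
      | mem w hw =>
        obtain ⟨x, hx, w'', rfl⟩ := hw
        refine Submodule.subset_span ⟨g * x, BF D hzu hx hg, w'', ?_⟩
        rw [Matrix.mulVec_mulVec, Matrix.mul_assoc]
      | zero => rw [Matrix.mulVec_zero]; exact Submodule.zero_mem _
      | add x y _ _ hx hy => rw [Matrix.mulVec_add]; exact Submodule.add_mem _ hx hy
      | smul c x _ hx => rw [Matrix.mulVec_smul]; exact Submodule.smul_mem _ c hx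
    | zero => exact Submodule.zero_mem _
    | add x y _ _ hx hy => exact Submodule.add_mem _ hx hy
    | smul c x _ hx => exact Submodule.smul_mem _ c hx
  have mKf : ∀ w : {j // Q s j} → K,
      (∀ x ∈ Bp s d a u, (f * x).mulVec w = 0) → w = 0 := by
    intro w hw
    refine mK w fun x hx => hfk _ fun y hy => ?_
    have h3 := hw _ (FB D hzu hy hx)
    rw [← Matrix.mul_assoc, ← Matrix.mulVec_mulVec] at h3
    exact h3
  have hrk : f.rank = 1 :=
    rank_one' (F s d a u z) (Ls s d a u : Set (Matrix {j // P s d u j} {j // P s d u j} K)) f hf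
      hff hf0 hfx hL (fun m hm x hx => LF D hm hx) (fun x hx y hy => FF D hzu hx hy)
      (fun m hm => fL gen gs hcz D hzu hf hm)
  have hBu : Bp s d a u = ⊤ := (rk1 K {j // P s d u j} {j // Q s j} f (F s d a u z) hff hrk hf
    hfs hfk).1 (Bp s d a u) (fun x hx y hy => FB D hzu hx hy) mKf
  have hBu' : Bm s d a u = ⊤ := (rk1 K {j // P s d u j} {j // Q s j} f (F s d a u z) hff hrk hf
    hfs hfk).2 (Bm s d a u) (fun x hx y hy => BF D hzu hx hy) mSf
  have qex : Nonempty {j // Q s j} := ⟨⟨hex0.choose, hex0.choose_spec⟩⟩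
  obtain ⟨q⟩ := qex
  let p : {j // P s d u j} := ⟨i₁, hi₁, rfl⟩
  have hB : ∀ v : ℤ, Bp s d a v = ⊤ := by
    intro v
    by_cases hv : v = u
    · rw [hv]; exact hBu
    refine (full rk1 q).2 (Bp s d a v) (fun x y hy => ?_) (tS v)
    rw [dec p x, Matrix.mul_sum]
    refine Submodule.sum_mem _ fun j _ => ?_
    rw [← Matrix.mul_assoc]
    exact C1 D hv hy (by rw [hBu']; exact Submodule.mem_top) (by rw [hBu]; exact Submodule.mem_top)
  have hB' : ∀ v : ℤ, Bm s d a v = ⊤ := by
    intro v
    by_cases hv : v = u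
    · rw [hv]; exact hBu'
    refine (full rk1 q).1 (Bm s d a v) (fun x y hy => ?_) (tK v)
    rw [dec p x, Matrix.sum_mul]
    refine Submodule.sum_mem _ fun j _ => ?_
    exact C2 D (Ne.symm hv) (by rw [hBu']; exact Submodule.mem_top)
      (by rw [hBu]; exact Submodule.mem_top) hy
  refine fin K n ε ψ s a gs hs1 hex hex0 ?_ ?_
  · intro M
    have h3 : ∀ z : ℤ, ∃ X ∈ a, GCDx.Hom s d 1 z X ∧
        GCDx.blk (P s d z) (Q s) X = GCDx.blk (P s d z) (Q s) M := fun z =>
      Bp_hom D (by rw [hB z]; exact Submodule.mem_top)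
    choose X hX gX bX using h3
    refine ⟨∑ z ∈ Finset.univ.image d, X z, Submodule.sum_mem _ fun z _ => hX z, ?_⟩
    intro i j hi hj
    rw [Matrix.sum_apply, Finset.sum_eq_single (d i)]
    · have h4 := congrFun (congrFun (bX (d i)) ⟨i, hi, rfl⟩) ⟨j, hj⟩
      exact h4
    · intro z _ hz
      by_contra hne
      have h4 := (gX z i j hne).2
      have h5 := hsd j (by omega)
      omega
    · intro hc
      exact absurd (Finset.mem_image_of_mem d (Finset.mem_univ i)) hc
  · intro M
    have h3 : ∀ z : ℤ, ∃ X ∈ a, GCDx.Hom s d (-1) (-z) X ∧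
        GCDx.blk (Q s) (P s d z) X = GCDx.blk (Q s) (P s d z) M := fun z =>
      Bm_hom D (by rw [hB' z]; exact Submodule.mem_top)
    choose X hX gX bX using h3
    refine ⟨∑ z ∈ Finset.univ.image d, X z, Submodule.sum_mem _ fun z _ => hX z, ?_⟩
    intro i j hi hj
    rw [Matrix.sum_apply, Finset.sum_eq_single (d j)]
    · have h4 := congrFun (congrFun (bX (d j)) ⟨i, hi⟩) ⟨j, hj, rfl⟩
      exact h4
    · intro z _ hz
      by_contra hne
      have h4 := (gX z i j hne).2
      have h5 := hsd i (by omega)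
      omega
    · intro hc
      exact absurd (Finset.mem_image_of_mem d (Finset.mem_univ j)) hc

end MT
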