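import Pool.Agent.Helper21.WD.GCD
import Pool.Agent.Helper21.WE.RK0

/-!
# GCN: a torus on the middle piece, without coprimality
-/

set_option autoImplicit false

open Matrix

namespace MT

namespace GCDx

variable {K : Type} [Field K] {n : ℕ}

variable {s d : Fin n → ℤ} {a : Submodule K (Matrix (Fin n) (Fin n) K)} {u e : ℤ}

theorem FEr (D : Dat s d a) {z : ℤ} (h1 : z ≠ e) (h2 : z + e ≠ 0)
    {x ε : Matrix {j // P s j} {j // P s j} K} (hx : x ∈ Fs s d a u e)
    (hε : ε ∈ Es s d a z) : x * ε ∈ Fs s d a u e := by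
  induction hx using Submodule.span_induction with
  | mem m hm =>
    obtain ⟨y1, hy1, y2, hy2, rfl⟩ := hm
    rw [Matrix.mul_assoc]
    exact Submodule.subset_span ⟨y1, hy1, _, EEr D (by omega) (by omega) hε hy2, rfl⟩
  | zero => rw [Matrix.zero_mul]; exact Submodule.zero_mem _
  | add u v _ _ hu hv => rw [Matrix.add_mul]; exact Submodule.add_mem _ hu hv
  | smul c u _ hu => rw [Matrix.smul_mul]; exact Submodule.smul_mem _ c hu

/-- `f E z ≤ F` -/
theorem fE (D : Dat s d a) (h1 : e ≠ u) (h2 : e + u ≠ 0) {z : ℤ}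
    {f ε : Matrix {j // P s j} {j // P s j} K} (hf : f ∈ Fs s d a u e) (hff : f * f = f)
    (hε : ε ∈ Es s d a z) : f * ε ∈ Fs s d a u e := by
  by_cases hz : z ≠ e ∧ z + e ≠ 0
  · exact FEr D hz.1 hz.2 hf hε
  · have h3 : f * ε ∈ Es s d a u := EEr D (by omega) (by omega) hε (F_le_u D h1 h2 hf)
    have h4 := FEr D (z := u) (by omega) (by omega) hf h3
    rw [← Matrix.mul_assoc, hff] at h4
    exact h4

/-- elements which are zero on the middle piece -/
theorem BmZ (D : Dat s d a) {z : ℤ} {y : Matrix {j // Q s d z j} {j // P s j} K}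
    (hy : y ∈ Bm s d a z) {Z : Matrix (Fin n) (Fin n) K} (hZ : Z ∈ a)
    (hZ0 : ∀ i j, s i = 0 → Z i j = 0) : y * blk (P s) (P s) Z ∈ Bm s d a z := by
  obtain ⟨Y, hY, gY, rfl⟩ := Bm_hom D hy
  refine Submodule.mem_map.mpr ⟨Y * Z - Z * Y, D.brk _ hY _ hZ, ?_⟩
  rw [map_sub, blk_mul (Q s d z) (P s) (P s) Y Z, blk_zero2 (Q s d z) (P s) Z Y, sub_zero]
  · intro i j k hi _ hik _
    exact hik (hZ0 i k hi.1)
  · intro i j k hi _ hik _
    obtain ⟨g1, g2⟩ := gY i k hik
    have := hi.1
    show s k = 1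
    omega

theorem EsZ (D : Dat s d a) {z : ℤ} {ε : Matrix {j // P s j} {j // P s j} K}
    (hε : ε ∈ Es s d a z) {Z : Matrix (Fin n) (Fin n) K} (hZ : Z ∈ a)
    (hZ0 : ∀ i j, s i = 0 → Z i j = 0) : ε * blk (P s) (P s) Z ∈ Es s d a z := by
  induction hε using Submodule.span_induction with
  | mem m hm =>
    obtain ⟨x, hx, y, hy, rfl⟩ := hm
    rw [Matrix.mul_assoc]
    exact Submodule.subset_span ⟨x, hx, _, BmZ D hy hZ hZ0, rfl⟩
  | zero => rw [Matrix.zero_mul]; exact Submodule.zero_mem _
  | add u v _ _ hu hv => rw [Matrix.add_mul]; exact Submodule.add_mem _ hu hv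
  | smul c u _ hu => rw [Matrix.smul_mul]; exact Submodule.smul_mem _ c hu

theorem FsZ (D : Dat s d a) {x : Matrix {j // P s j} {j // P s j} K}
    (hx : x ∈ Fs s d a u e) {Z : Matrix (Fin n) (Fin n) K} (hZ : Z ∈ a)
    (hZ0 : ∀ i j, s i = 0 → Z i j = 0) : x * blk (P s) (P s) Z ∈ Fs s d a u e := by
  induction hx using Submodule.span_induction with
  | mem m hm =>
    obtain ⟨x, hx, y, hy, rfl⟩ := hm
    rw [Matrix.mul_assoc]
    exact Submodule.subset_span ⟨x, hx, _, EsZ D hy hZ hZ0, rfl⟩
  | zero => rw [Matrix.zero_mul]; exact Submodule.zero_mem _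
  | add u v _ _ hu hv => rw [Matrix.add_mul]; exact Submodule.add_mem _ hu hv
  | smul c u _ hu => rw [Matrix.smul_mul]; exact Submodule.smul_mem _ c hu

/-- brackets of elements of degrees `1` and `-1`, on the top piece -/
theorem blkBC (D : Dat s d a) {B C : Matrix (Fin n) (Fin n) K} (hB1 : cmp s 1 B = B) :
    blk (P s) (P s) (B * C - C * B) = ∑ z ∈ Finset.univ.image d,
      blk (P s) (Q s d z) B * blk (Q s d z) (P s) C := by
  have e0 : blk (P s) (P s) (C * B) = 0 := by
    refine blk_zero2 _ _ _ _ fun i j k hi hj _ hkj => ?_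
    rw [← hB1] at hkj
    have h1 := (cmp_ne hkj).1
    have h2 := D.s1 k
    have hj' : s j = 1 := hj
    omega
  rw [map_sub, e0, sub_zero]
  ext ⟨i, hi⟩ ⟨j, hj⟩
  have hi' : s i = 1 := hi
  rw [Matrix.sum_apply, blk_apply, Matrix.mul_apply]
  have h1 : ∑ k, B i k * C k j = ∑ k ∈ Finset.univ.filter (fun k => s k = 0), B i k * C k j := by
    symm
    apply Finset.sum_filter_of_ne
    intro k _ hk
    have h2 := left_ne_zero_of_mul hk
    rw [← hB1] at h2
    have h3 := (cmp_ne h2).1
    omega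
  rw [h1, ← Finset.sum_fiberwise_of_maps_to (g := d) (t := Finset.univ.image d)
    (fun k _ => Finset.mem_image_of_mem d (Finset.mem_univ k))]
  refine Finset.sum_congr rfl fun z _ => ?_
  rw [Matrix.mul_apply, Finset.filter_filter]
  exact Finset.sum_subtype (Finset.univ.filter (fun k => s k = 0 ∧ d k = z))
    (p := fun k => s k = 0 ∧ d k = z) (fun x => by simp) (fun k => B i k * C k j)

/-- `f L ≤ F` -/
theorem fL [CharZero K] [IsAlgClosed K] (gen : ST_GEN0) {ε : K} {ψ : Matrix (Fin n) (Fin n) K}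
    (gs : GrD ε ψ s a) (hcz : Cz s a)
    (D : Dat s d a) (h1 : e ≠ u) (h2 : e + u ≠ 0) {f : Matrix {j // P s j} {j // P s j} K}
    (hf : f ∈ Fs s d a u e) (hff : f * f = f) {m : Matrix {j // P s j} {j // P s j} K}
    (hm : m ∈ Ls s a) : f * m ∈ Fs s d a u e := by
  obtain ⟨X, hX, gX, rfl⟩ := Ls_hom D hm
  have hX0 : cmp s 0 X = X := by
    ext i j
    by_cases h : s i - s j = 0
    · rw [cmp_at h]
    · unfold cmp
      rw [Matrix.of_apply, if_neg h]
      by_contra hne
      exact h (gX i j (Ne.symm hne)).1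
  have h3 := gen K n ε ψ s a gs (fun j => abs_le.mpr (D.s1 j)) hcz X hX hX0
  clear hX0 gX hm hX
  induction h3 using Submodule.span_induction with
  | mem X hX =>
    obtain ⟨B, hB, C, hC, hBC, rfl⟩ := hX
    rcases hBC with ⟨hB1, -⟩ | ⟨hB1, hC1⟩
    · rw [blkBC D hB1, Matrix.mul_sum]
      refine Submodule.sum_mem _ fun z _ => ?_
      exact fE D h1 h2 hf hff (Submodule.subset_span
        ⟨_, Submodule.mem_map_of_mem hB, _, Submodule.mem_map_of_mem hC, rfl⟩ : _ ∈ Es s d a z)
    · refine FsZ D hf (D.brk _ hB _ hC) fun i j hi => ?_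
      rw [Matrix.sub_apply, Matrix.mul_apply, Matrix.mul_apply]
      have e1 : ∑ k, B i k * C k j = 0 := by
        refine Finset.sum_eq_zero fun k _ => ?_
        by_contra hne
        have h4 := left_ne_zero_of_mul hne
        rw [← hB1] at h4
        have h5 := (cmp_ne h4).1
        have h6 := D.s1 k
        omega
      have e2 : ∑ k, C i k * B k j = 0 := by
        refine Finset.sum_eq_zero fun k _ => ?_
        by_contra hne
        have h4 := left_ne_zero_of_mul hne
        rw [← hC1] at h4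
        have h5 := (cmp_ne h4).1
        have h6 := D.s1 k
        omega
      rw [e1, e2, sub_zero]
  | zero => rw [map_zero, Matrix.mul_zero]; exact Submodule.zero_mem _
  | add x y _ _ hx hy => rw [map_add, Matrix.mul_add]; exact Submodule.add_mem _ hx hy
  | smul c x _ hx => rw [map_smul, Matrix.mul_smul]; exact Submodule.smul_mem _ c hx

end GCDx

open GCDx

theorem st_GCN (alg : ST_ALG) (rk1 : ST_RK1) (spb : ST_SPB) (tpi : ST_TPI)
    (fin : ST_FIN) (gen : ST_GEN0) : ST_GCN := by
  intro K _ _ _ n ε ψ s d a gs gd hs1 hex hsd htwo hcz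
  have D : Dat s d a := ⟨gs.brk, gs.comp, gd.comp, fun j => abs_le.mp (hs1 j), hsd⟩
  obtain ⟨sp1, sp2⟩ := spb K n ε ψ s a gs hs1 hex
  obtain ⟨i₀, j₀, hi₀, hj₀, hne, hne'⟩ := htwo
  set u := d i₀ with hu
  set e := d j₀ with he
  have h1 : e ≠ u := fun h => hne h.symm
  have h2 : e + u ≠ 0 := by omega
  have hL := Lirr tpi gs.brk gs.irr gs.comp (fun j => (D.s1 j).2)
  -- spans of images
  have key : ∀ (R : Submodule K (Matrix {j // P s j} {j // P s j} K)), R ≠ ⊥ →
      (∀ m ∈ (Ls s a : Set (Matrix {j // P s j} {j // P s j} K)), ∀ x ∈ R, m * x - x * m ∈ R) →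
      ∀ v : {j // P s j} → K,
      v ∈ Submodule.span K {w | ∃ x ∈ R, ∃ u', w = x.mulVec u'} := by
    intro R hR hm v
    rcases hL (Submodule.span K {w | ∃ x ∈ R, ∃ u', w = x.mulVec u'}) (by
      intro m hm' v hv
      induction hv using Submodule.span_induction with
      | mem v hv =>
        obtain ⟨x, hx, u', rfl⟩ := hv
        have h3 : m.mulVec (x.mulVec u') = (m * x - x * m).mulVec u' + x.mulVec (m.mulVec u') := by
          simp only [Matrix.mulVec_mulVec, Matrix.sub_mulVec]
          abel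
        rw [h3]
        exact Submodule.add_mem _ (Submodule.subset_span ⟨_, hm m hm' x hx, _, rfl⟩)
          (Submodule.subset_span ⟨_, hx, _, rfl⟩)
      | zero => rw [Matrix.mulVec_zero]; exact Submodule.zero_mem _
      | add x y _ _ hx hy => rw [Matrix.mulVec_add]; exact Submodule.add_mem _ hx hy
      | smul c x _ hx => rw [Matrix.mulVec_smul]; exact Submodule.smul_mem _ c hx) with h | h
    · exfalso
      apply hR
      rw [eq_bot_iff]
      intro x hx
      rw [Submodule.mem_bot]
      have h3 : ∀ u', x.mulVec u' = 0 := by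
        intro u'
        have h4 : x.mulVec u' ∈ Submodule.span K {w | ∃ x ∈ R, ∃ u', w = x.mulVec u'} :=
          Submodule.subset_span ⟨x, hx, u', rfl⟩
        rw [h, Submodule.mem_bot] at h4
        exact h4
      ext i j
      have h4 := congrFun (h3 (Pi.single j 1)) i
      rw [Matrix.mulVec_single_one] at h4
      exact h4
    · rw [h]; exact Submodule.mem_top
  -- the spaces `E z` of inner degrees are not zero
  have hE : ∀ j, s j = 0 → Es s d a (d j) ≠ ⊥ := by
    intro j hj h
    have h3 : ∀ x ∈ Bp s d a (d j), ∀ y ∈ Bm s d a (d j), x * y = 0 := by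
      intro x hx y hy
      have h4 : x * y ∈ Es s d a (d j) := Submodule.subset_span ⟨x, hx, y, hy, rfl⟩
      rw [h, Submodule.mem_bot] at h4
      exact h4
    have h4 : ∀ x ∈ Bp s d a (d j), ∀ v : {i // Q s d (d j) i} → K, x.mulVec v = 0 := by
      intro x hx v
      have h5 := S1 (d := d) sp1 (d j) v
      induction h5 using Submodule.span_induction with
      | mem v hv =>
        obtain ⟨y, hy, u', rfl⟩ := hv
        rw [Matrix.mulVec_mulVec, h3 x hx y hy, Matrix.zero_mulVec]
      | zero => rw [Matrix.mulVec_zero]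
      | add x y _ _ hx hy => rw [Matrix.mulVec_add, hx, hy, add_zero]
      | smul c x _ hx => rw [Matrix.mulVec_smul, hx, smul_zero]
    have h5 := S2 (d := d) sp2 (d j) (Pi.single ⟨j, hj, rfl⟩ 1) (fun x hx => h4 x hx _)
    have h6 := congrFun h5 ⟨j, hj, rfl⟩
    rw [Pi.single_eq_same] at h6
    exact one_ne_zero h6
  have hF : Fs s d a u e ≠ ⊥ := by
    intro h
    apply hE i₀ hi₀
    rw [eq_bot_iff]
    intro x hx
    rw [Submodule.mem_bot]
    have h3 : ∀ y ∈ Es s d a e, x * y = 0 := by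
      intro y hy
      have h4 : x * y ∈ Fs s d a u e := Submodule.subset_span ⟨x, hx, y, hy, rfl⟩
      rw [h, Submodule.mem_bot] at h4
      exact h4
    have h4 : ∀ v, x.mulVec v = 0 := by
      intro v
      have h5 := key (Es s d a e) (hE j₀ hj₀) (fun m hm x hx => LE D hm hx) v
      induction h5 using Submodule.span_induction with
      | mem v hv =>
        obtain ⟨y, hy, u', rfl⟩ := hv
        rw [Matrix.mulVec_mulVec, h3 y hy, Matrix.zero_mulVec]
      | zero => rw [Matrix.mulVec_zero]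
      | add x y _ _ hx hy => rw [Matrix.mulVec_add, hx, hy, add_zero]
      | smul c x _ hx => rw [Matrix.mulVec_smul, hx, smul_zero]
    ext i j
    have h5 := congrFun (h4 (Pi.single j 1)) i
    rw [Matrix.mulVec_single_one] at h5
    exact h5
  obtain ⟨f, hf, hff, hf0, hfx, hfs, hfk⟩ := alg K {j // P s j} (Fs s d a u e)
    (Ls s a : Set (Matrix {j // P s j} {j // P s j} K)) (fun x hx y hy => FF D h1 h2 hx hy)
    (fun m hm x hx => LF D hm hx) hL hF
  -- spanning and kernels
  have spN : ∀ (z : ℤ) (v : {j // Q s d z j} → K), v ∈ Submodule.span K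
      {w | ∃ y ∈ Bm s d a z, ∃ u' : {j // P s j} → K, w = (y * f).mulVec u'} := by
    intro z v
    have h3 := S1 (d := d) sp1 z v
    induction h3 using Submodule.span_induction with
    | mem v hv =>
      obtain ⟨y, hy, u', rfl⟩ := hv
      have h4 := hfs u'
      induction h4 using Submodule.span_induction with
      | mem v hv =>
        obtain ⟨g, hg, u'', rfl⟩ := hv
        refine Submodule.subset_span ⟨y * g, BF D h1 h2 hg hy, u'', ?_⟩
        rw [Matrix.mulVec_mulVec, Matrix.mul_assoc]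
      | zero => rw [Matrix.mulVec_zero]; exact Submodule.zero_mem _
      | add x y _ _ hx hy => rw [Matrix.mulVec_add]; exact Submodule.add_mem _ hx hy
      | smul c x _ hx => rw [Matrix.mulVec_smul]; exact Submodule.smul_mem _ c hx
    | zero => exact Submodule.zero_mem _
    | add x y _ _ hx hy => exact Submodule.add_mem _ hx hy
    | smul c x _ hx => exact Submodule.smul_mem _ c hx
  have kerN : ∀ (z : ℤ) (v : {j // Q s d z j} → K),
      (∀ y ∈ Bp s d a z, (f * y).mulVec v = 0) → v = 0 := by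
    intro z v hv
    refine S2 (d := d) sp2 z v fun x hx => hfk _ fun g hg => ?_
    have h3 := hv _ (FB D h1 h2 hg hx)
    rw [← Matrix.mul_assoc, ← Matrix.mulVec_mulVec] at h3
    exact h3
  have hrk : f.rank = 1 :=
    rank_one' (Fs s d a u e) (Ls s a : Set (Matrix {j // P s j} {j // P s j} K)) f hf hff hf0 hfx
      hL (fun m hm x hx => LF D hm hx) (fun x hx y hy => FF D h1 h2 hx hy)
      (fun m hm => fL gen gs hcz D h1 h2 hf hff hm)
  have hB : ∀ z : ℤ, Bp s d a z = ⊤ := fun z =>
    (rk1 K {j // P s j} {j // Q s d z j} f (Fs s d a u e) hff hrk hf hfs hfk).1 (Bp s d a z)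
      (fun x hx y hy => FB D h1 h2 hx hy) (kerN z)
  have hB' : ∀ z : ℤ, Bm s d a z = ⊤ := fun z =>
    (rk1 K {j // P s j} {j // Q s d z j} f (Fs s d a u e) hff hrk hf hfs hfk).2 (Bm s d a z)
      (fun x hx y hy => BF D h1 h2 hx hy) (spN z)
  refine fin K n ε ψ s a gs hs1 hex ⟨i₀, hi₀⟩ ?_ ?_
  · intro M
    have h3 : ∀ z : ℤ, ∃ X ∈ a, Hom s d 1 (-z) X ∧
        GCDx.blk (P s) (Q s d z) X = GCDx.blk (P s) (Q s d z) M := fun z =>
      Bp_hom D (by rw [hB z]; exact Submodule.mem_top)
    choose X hX gX bX using h3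
    refine ⟨∑ z ∈ Finset.univ.image d, X z, Submodule.sum_mem _ fun z _ => hX z, ?_⟩
    intro i j hi hj
    rw [Matrix.sum_apply, Finset.sum_eq_single (d j)]
    · have h4 := congrFun (congrFun (bX (d j)) ⟨i, hi⟩) ⟨j, hj, rfl⟩
      exact h4
    · intro z _ hz
      by_contra hne
      have h4 := (gX z i j hne).2
      have h5 := hsd i (by omega)
      omega
    · intro hc
      exact absurd (Finset.mem_image_of_mem d (Finset.mem_univ j)) hc
  · intro M
    have h3 : ∀ z : ℤ, ∃ X ∈ a, Hom s d (-1) z X ∧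
        GCDx.blk (Q s d z) (P s) X = GCDx.blk (Q s d z) (P s) M := fun z =>
      Bm_hom D (by rw [hB' z]; exact Submodule.mem_top)
    choose X hX gX bX using h3
    refine ⟨∑ z ∈ Finset.univ.image d, X z, Submodule.sum_mem _ fun z _ => hX z, ?_⟩
    intro i j hi hj
    rw [Matrix.sum_apply, Finset.sum_eq_single (d i)]
    · have h4 := congrFun (congrFun (bX (d i)) ⟨i, hi, rfl⟩) ⟨j, hj⟩
      exact h4
    · intro z _ hz
      by_contra hne
      have h4 := (gX z i j hne).2
      have h5 := hsd j (by omega)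
      omega
    · intro hc
      exact absurd (Finset.mem_image_of_mem d (Finset.mem_univ i)) hc

end MT
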