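import Pool.Agent.Helper5.WD.SCP
import Pool.Agent.Helper21.WE.Stmts

/-!
# GEN0: the part of degree zero is generated by the other parts
-/

set_option autoImplicit false

open Matrix

namespace MT

namespace Gen0

open SCPx (Hm hm_iff Hm.brk bd')

variable {K : Type} [Field K] {n : ℕ} {s : Fin n → ℤ}

/-- the space `W` -/
def W (s : Fin n → ℤ) (a : Submodule K (Matrix (Fin n) (Fin n) K)) :
    Submodule K (Matrix (Fin n) (Fin n) K) :=
  Submodule.span K
      {X | ∃ B ∈ a, ∃ C ∈ a, ((cmp s 1 B = B ∧ cmp s (-1) C = C) ∨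
        (cmp s 2 B = B ∧ cmp s (-2) C = C)) ∧ X = B * C - C * B}

theorem cmp_add' (x : ℤ) (A B : Matrix (Fin n) (Fin n) K) :
    cmp s x (A + B) = cmp s x A + cmp s x B := by
  ext i j
  simp only [cmp, Matrix.of_apply, Matrix.add_apply]
  split_ifs
  · rfl
  · rw [add_zero]

theorem cmp_smul' (x : ℤ) (c : K) (A : Matrix (Fin n) (Fin n) K) :
    cmp s x (c • A) = c • cmp s x A := by
  ext i j
  simp only [cmp, Matrix.of_apply, Matrix.smul_apply]
  split_ifs
  · rfl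
  · rw [smul_zero]

theorem cmp_zero' (x : ℤ) : cmp s x (0 : Matrix (Fin n) (Fin n) K) = 0 := by
  ext i j
  simp [cmp]

theorem cmp_cmp (x : ℤ) (A : Matrix (Fin n) (Fin n) K) : cmp s x (cmp s x A) = cmp s x A := by
  ext i j
  simp only [cmp, Matrix.of_apply]
  split_ifs <;> rfl

theorem cmp_ne0 {x y : ℤ} (hxy : x ≠ y) {A : Matrix (Fin n) (Fin n) K} (hA : cmp s x A = A) :
    cmp s y A = 0 := by
  rw [← hA]
  ext i j
  simp only [cmp, Matrix.of_apply, Matrix.zero_apply]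
  split_ifs with h1 h2
  · omega
  · rfl
  · rfl

/-- the component of degree zero of a product -/
theorem cmp_mul (hs : ∀ j, |s j| ≤ 1) (Z A : Matrix (Fin n) (Fin n) K) :
    cmp s 0 (Z * A) = ∑ x ∈ Finset.Icc (-2 : ℤ) 2, cmp s x Z * cmp s (-x) A := by
  ext i j
  rw [Matrix.sum_apply]
  simp only [Matrix.mul_apply]
  rw [Finset.sum_comm]
  by_cases hij : s i - s j = 0
  · have h1 : cmp s 0 (Z * A) i j = ∑ k, Z i k * A k j := by
      simp [cmp, hij, Matrix.mul_apply]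
    rw [h1]
    refine Finset.sum_congr rfl fun k _ => ?_
    rw [Finset.sum_eq_single (s i - s k)]
    · simp only [cmp, Matrix.of_apply]
      rw [if_pos trivial, if_pos (by omega)]
    · intro x _ hx
      simp only [cmp, Matrix.of_apply]
      rw [if_neg (fun h => hx h.symm), zero_mul]
    · intro hc
      exfalso
      apply hc
      have h2 := bd' hs i
      have h3 := bd' hs k
      rw [Finset.mem_Icc]
      omega
  · have h1 : cmp s 0 (Z * A) i j = 0 := by
      simp [cmp, hij]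
    rw [h1]
    symm
    refine Finset.sum_eq_zero fun k _ => Finset.sum_eq_zero fun x _ => ?_
    simp only [cmp, Matrix.of_apply]
    by_cases h2 : s i - s k = x
    · rw [if_pos h2, if_neg (by omega), mul_zero]
    · rw [if_neg h2, zero_mul]

variable {a : Submodule K (Matrix (Fin n) (Fin n) K)}

/-- brackets with elements of degree zero -/
theorem W_stab (hb : Brk a) {Z : Matrix (Fin n) (Fin n) K} (hZ : Z ∈ a) (hZ0 : cmp s 0 Z = Z)
    {X : Matrix (Fin n) (Fin n) K} (hX : X ∈ W s a) : Z * X - X * Z ∈ W s a := by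
  induction hX using Submodule.span_induction with
  | mem X hX =>
    obtain ⟨B, hB, C, hC, hBC, rfl⟩ := hX
    have h1 : Z * (B * C - C * B) - (B * C - C * B) * Z =
        ((Z * B - B * Z) * C - C * (Z * B - B * Z)) +
          (B * (Z * C - C * Z) - (Z * C - C * Z) * B) := by
      noncomm_ring
    have hZm : Hm s 0 Z := hm_iff.1 hZ0
    rw [h1]
    refine Submodule.add_mem _ ?_ ?_
    · refine Submodule.subset_span ⟨_, hb Z hZ B hB, C, hC, ?_, rfl⟩
      rcases hBC with ⟨h2, h3⟩ | ⟨h2, h3⟩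
      · exact Or.inl ⟨hm_iff.2 (hZm.brk (hm_iff.1 h2) (by norm_num)), h3⟩
      · exact Or.inr ⟨hm_iff.2 (hZm.brk (hm_iff.1 h2) (by norm_num)), h3⟩
    · refine Submodule.subset_span ⟨B, hB, _, hb Z hZ C hC, ?_, rfl⟩
      rcases hBC with ⟨h2, h3⟩ | ⟨h2, h3⟩
      · exact Or.inl ⟨h2, hm_iff.2 (hZm.brk (hm_iff.1 h3) (by norm_num))⟩
      · exact Or.inr ⟨h2, hm_iff.2 (hZm.brk (hm_iff.1 h3) (by norm_num))⟩
  | zero => simp
  | add x y _ _ hx hy =>
    have h1 : Z * (x + y) - (x + y) * Z = (Z * x - x * Z) + (Z * y - y * Z) := by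
      noncomm_ring
    rw [h1]
    exact Submodule.add_mem _ hx hy
  | smul c x _ hx =>
    have h1 : Z * (c • x) - (c • x) * Z = c • (Z * x - x * Z) := by
      rw [Matrix.mul_smul, Matrix.smul_mul, smul_sub]
    rw [h1]
    exact Submodule.smul_mem _ _ hx

/-- the ideal -/
def I (s : Fin n → ℤ) (a : Submodule K (Matrix (Fin n) (Fin n) K)) :
    Submodule K (Matrix (Fin n) (Fin n) K) where
  carrier := {A | A ∈ a ∧ cmp s 0 A ∈ W s a}
  add_mem' := by
    rintro x y ⟨hx, hx'⟩ ⟨hy, hy'⟩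
    exact ⟨a.add_mem hx hy, by rw [cmp_add']; exact Submodule.add_mem _ hx' hy'⟩
  zero_mem' := ⟨a.zero_mem, by rw [cmp_zero']; exact Submodule.zero_mem _⟩
  smul_mem' := by
    rintro c x ⟨hx, hx'⟩
    exact ⟨a.smul_mem c hx, by rw [cmp_smul']; exact Submodule.smul_mem _ _ hx'⟩

theorem idl_I (hs : ∀ j, |s j| ≤ 1) (hb : Brk a) (hc : ∀ A ∈ a, ∀ x, cmp s x A ∈ a) :
    Idl a (I s a) := by
  refine ⟨fun A hA => hA.1, fun Z hZ A hA => ⟨hb Z hZ A hA.1, ?_⟩⟩
  have h1 : cmp s 0 (Z * A - A * Z) = ∑ x ∈ Finset.Icc (-2 : ℤ) 2,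
      (cmp s x Z * cmp s (-x) A - cmp s (-x) A * cmp s x Z) := by
    have h2 : cmp s 0 (Z * A - A * Z) = cmp s 0 (Z * A) - cmp s 0 (A * Z) := by
      ext i j
      simp only [cmp, Matrix.of_apply, Matrix.sub_apply]
      split_ifs
      · rfl
      · rw [sub_zero]
    have h3 : ∑ x ∈ Finset.Icc (-2 : ℤ) 2, cmp s x A * cmp s (-x) Z =
        ∑ x ∈ Finset.Icc (-2 : ℤ) 2, cmp s (-x) A * cmp s x Z := by
      refine Finset.sum_nbij' (fun x => -x) (fun x => -x) ?_ ?_ ?_ ?_ ?_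
      · intro x hx
        rw [Finset.mem_Icc] at hx ⊢
        omega
      · intro x hx
        rw [Finset.mem_Icc] at hx ⊢
        omega
      · intro x _
        exact neg_neg x
      · intro x _
        exact neg_neg x
      · intro x _
        rw [neg_neg]
    rw [h2, cmp_mul hs, cmp_mul hs, h3, ← Finset.sum_sub_distrib]
  rw [h1]
  refine Submodule.sum_mem _ fun x hx => ?_
  rw [Finset.mem_Icc] at hx
  have e : ∀ y, cmp s y (cmp s y Z) = cmp s y Z := fun y => cmp_cmp y Z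
  have e' : ∀ y, cmp s y (cmp s y A) = cmp s y A := fun y => cmp_cmp y A
  rcases (show x = -2 ∨ x = -1 ∨ x = 0 ∨ x = 1 ∨ x = 2 by omega) with rfl | rfl | rfl | rfl | rfl
  · rw [← neg_sub, neg_neg]
    refine Submodule.neg_mem _ (Submodule.subset_span
      ⟨_, hc A hA.1 2, _, hc Z hZ (-2), Or.inr ⟨e' 2, e (-2)⟩, rfl⟩)
  · rw [← neg_sub, neg_neg]
    refine Submodule.neg_mem _ (Submodule.subset_span
      ⟨_, hc A hA.1 1, _, hc Z hZ (-1), Or.inl ⟨e' 1, e (-1)⟩, rfl⟩)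
  · rw [neg_zero]
    exact W_stab hb (hc Z hZ 0) (e 0) hA.2
  · exact Submodule.subset_span
      ⟨_, hc Z hZ 1, _, hc A hA.1 (-1), Or.inl ⟨e 1, e' (-1)⟩, rfl⟩
  · exact Submodule.subset_span
      ⟨_, hc Z hZ 2, _, hc A hA.1 (-2), Or.inr ⟨e 2, e' (-2)⟩, rfl⟩

end Gen0

open Gen0

theorem st_GEN0 (ssl : ST_SSL) : ST_GEN0 := by
  intro K _ _ _ n ε ψ s a gs hs hcz A hA hA0
  obtain ⟨x, hx, y, hy, hxy, hcom⟩ := ssl K n ψ a (I s a) ⟨gs.unit, gs.brk, gs.irr, gs.iso⟩
    (idl_I hs gs.brk gs.comp) A hA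
  have hx0 : x = 0 := by
    refine hcz x hx fun B hB hB1 => hcom B ⟨hB, ?_⟩
    rcases hB1 with hB1 | hB1
    · rw [cmp_ne0 (by norm_num) hB1]
      exact Submodule.zero_mem _
    · rw [cmp_ne0 (by norm_num) hB1]
      exact Submodule.zero_mem _
  rw [hx0, zero_add] at hxy
  have h1 := hy.2
  rw [← hxy, hA0] at h1
  exact h1

end MT
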