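import Pool.Agent.Helper21.WE.TOSH
import Pool.Agent.Helper21.WE.StmtsR
import Pool.Agent.Helper21.RM.HIR
import Pool.Agent.Helper21.MT10.HSGG

/-!
# T15: HSG (port to `RMot`)
-/

set_option autoImplicit false

open NumberField MU MT

namespace MR

/-- rational matrices which commute with the Hodge cocharacter -/
theorem hend_sca {F : Type} [Field F] [NumberField F] {n w : ℕ} {h : Fin n → ℕ}
    (M : RMot F n w h) (hE : M.HEnd) (Y : Matrix (Fin n) (Fin n) ℚ)
    (hY : Y.map (algebraMap ℚ ℂ) * ((M.hodge : Matrix (Fin n) (Fin n) ℂ) *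
        Matrix.diagonal (fun j => (h j : ℂ)) *
          ((M.hodge⁻¹ : Matrix.GeneralLinearGroup (Fin n) ℂ) : Matrix (Fin n) (Fin n) ℂ)) =
        ((M.hodge : Matrix (Fin n) (Fin n) ℂ) *
        Matrix.diagonal (fun j => (h j : ℂ)) *
          ((M.hodge⁻¹ : Matrix.GeneralLinearGroup (Fin n) ℂ) : Matrix (Fin n) (Fin n) ℂ)) *
            Y.map (algebraMap ℚ ℂ)) : ∃ c : ℚ, Y = c • 1 := by
  apply hE
  intro z
  obtain ⟨⟨p, hp⟩, -⟩ := h25_pol M z
  have h1 := h25_aev _ _ _ hY.symm p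
  rw [← hp] at h1
  unfold bas
  rw [h25_bas]
  exact h1

/-- HSG -/
theorem st_HSGN (hla : ST_HLA) (hir : ST_HIR) (den : ST_DEN) (tos : ST_TOSH) (tsc : ST_TSC)
    (hwt : ST_HWT) (hdg7 : ST_HDG7) (hsm : ST_HSM) : ST_HSGN := by
  intro F _ _ n w h M hw hT hM K _ _
  obtain ⟨a, ha, hbrk, hsim, hΘ⟩ := hla F n w h M
  obtain ⟨hirr, hcomm⟩ := hir F n w h M a hM hsim hΘ
  have hn := wideH_pos hT
  have hirrC := den ℚ ℂ n (a : Set (Matrix (Fin n) (Fin n) ℚ)) hirr hcomm
  have hsc : (∀ Y : Matrix (Fin n) (Fin n) ℚ,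
      Y.map (algebraMap ℚ ℂ) * ((M.hodge : Matrix (Fin n) (Fin n) ℂ) *
        Matrix.diagonal (fun j => (h j : ℂ)) *
          ((M.hodge⁻¹ : Matrix.GeneralLinearGroup (Fin n) ℂ) : Matrix (Fin n) (Fin n) ℂ)) =
        ((M.hodge : Matrix (Fin n) (Fin n) ℂ) *
        Matrix.diagonal (fun j => (h j : ℂ)) *
          ((M.hodge⁻¹ : Matrix.GeneralLinearGroup (Fin n) ℂ) : Matrix (Fin n) (Fin n) ℂ)) *
            Y.map (algebraMap ℚ ℂ) → ∃ c : ℚ, Y = c • 1) ∨
      (Finset.univ.filter fun j => 2 * h j = w).card = 1 := by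
    rcases hM with hE | ⟨hE, -⟩
    · exact Or.inl fun Y hY => hend_sca M hE Y hY
    · exact Or.inr hE
  have hfull := tos n w h M.ψ M.hodge a hT M.ψ_det M.ψ_sym hbrk hsim (hsm F n w h M)
    hirrC hΘ hsc
  apply Set.Subset.antisymm
  · exact hdg7 F n w h M K hn
  · intro g hg p q t ht
    by_cases h0 : t = 0
    · subst h0
      have h1 : (0 : Tensor n p q ℚ).base K = 0 := by
        funext i j
        show (((0 : ℚ)) : K) = 0
        exact Rat.cast_zero
      rw [h1]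
      funext i j
      unfold act
      refine Finset.sum_eq_zero fun i' _ => Finset.sum_eq_zero fun j' _ => ?_
      exact mul_zero _
    · have hpq := hwt F n w h M p q t hw ht h0
      subst hpq
      exact tsc n p w M.ψ t hn M.ψ_det M.ψ_sym (fun A hA => (ha A).mp (hfull A hA) p p t ht) K g hg

end MR
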