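import Pool.Agent.Helper5.WD.SC2
import Pool.Agent.Helper21.WE.RK0

/-!
# SC2N: elements of degree two, without coprimality
-/

set_option autoImplicit false

open Matrix

namespace MT

open SCPx in
/-- Row SC2N. -/
theorem st_SC2N (hALG : ST_ALG) (hRK1 : ST_RK1) (hTRC : ST_TRC) (hSPB : ST_SPB)
    (hTPI : ST_TPI) (hFIN : ST_FIN) (hGEN : ST_GEN0) : ST_SC2N := by
  intro K _ _ _ n ε ψ s a hG hs h1 h0 hcz
  by_cases hz : ∃ z ∈ a, cmp s 2 z = z ∧ z ≠ 0
  swap
  · left
    push Not at hz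
    exact ⟨0, fun z hza hz' => ⟨0, by rw [hz z hza hz', smul_zero]⟩⟩
  obtain ⟨z, hz, hz2, hz0⟩ := hz
  have hz2' : Hm s 2 z := hm_iff.1 hz2
  set G := GG s a with hGdef
  have hne : G.toSubmodule ≠ ⊥ := by
    intro hbot
    refine GG_neE hTRC hG hs hz hz2' hz0 fun Y hY hY' => ?_
    have : bq s 1 1 (z * Y) ∈ G.toSubmodule :=
      NonUnitalAlgebra.subset_adjoin K ⟨z, hz, Y, hY, hz2', hY', rfl⟩
    rw [hbot, Submodule.mem_bot] at this
    exact this
  have hmulG : ∀ x ∈ G.toSubmodule, ∀ y ∈ G.toSubmodule, x * y ∈ G.toSubmodule :=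
    fun x hx y hy => mul_mem (S := NonUnitalSubalgebra K _) (s := G) hx hy
  have hcomG : ∀ w ∈ (BB s 1 1 a : Set (Matrix {j // s j = 1} {j // s j = 1} K)),
      ∀ x ∈ G.toSubmodule, w * x - x * w ∈ G.toSubmodule :=
    fun w hw x hx => comm_GG hG.brk hw hx
  obtain ⟨f, hf, hff, hf0, hfc, hfs, hft⟩ := hALG K {j // s j = 1} G.toSubmodule
    (BB s 1 1 a : Set (Matrix {j // s j = 1} {j // s j = 1} K)) hmulG hcomG
    (irr_top hTPI hG.brk hG.irr hG.comp hs) hne
  by_cases hf1 : f = 1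
  · left
    subst hf1
    have hsc : ∀ X ∈ a, Hm s 2 X → ∀ Y ∈ a, Hm s (-2) Y → ∃ c : K,
        bq s 1 1 (X * Y) = c • (1 : Matrix {j // s j = 1} {j // s j = 1} K) := by
      intro X hX hX' Y hY hY'
      have h2 : bq s 1 1 (X * Y) ∈ G.toSubmodule :=
        NonUnitalAlgebra.subset_adjoin K ⟨X, hX, Y, hY, hX', hY', rfl⟩
      obtain ⟨c, hc⟩ := hfc _ h2
      rw [one_mul, mul_one] at hc
      exact ⟨c, hc⟩
    obtain ⟨Y, hY, hY', hne'⟩ : ∃ Y ∈ a, Hm s (-2) Y ∧ bq s 1 1 (z * Y) ≠ 0 := by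
      by_contra hc
      push Not at hc
      exact GG_neE hTRC hG hs hz hz2' hz0 hc
    obtain ⟨c₀, hc₀⟩ := hsc z hz hz2' Y hY hY'
    have hc₀' : c₀ ≠ 0 := by
      rintro rfl
      exact hne' (by rw [hc₀, zero_smul])
    refine ⟨z, fun X hX hX' => ?_⟩
    obtain ⟨c, hc⟩ := hsc X hX (hm_iff.1 hX') Y hY hY'
    exact ⟨c / c₀, one_of_scalar hG hs hz2' hc₀' hc₀ (hm_iff.1 hX') hc⟩
  right
  -- `k`
  obtain ⟨k, hk, hkq⟩ : ∃ k ∈ G.toSubmodule, k * f - f * k * f ≠ 0 := by
    by_contra hc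
    push Not at hc
    apply hf1
    have h2 : ∀ v : {j // s j = 1} → K, f.mulVec v = v := by
      intro v
      refine Submodule.span_induction (p := fun v _ => f.mulVec v = v) ?_ ?_ ?_ ?_ (hfs v)
      · rintro _ ⟨x, hx, u', rfl⟩
        have h3 := sub_eq_zero.1 (hc x hx)
        rw [Matrix.mulVec_mulVec, ← Matrix.mul_assoc, ← h3]
      · exact Matrix.mulVec_zero f
      · intro x y _ _ hx hy
        rw [Matrix.mulVec_add, hx, hy]
      · intro c x _ hx
        rw [Matrix.mulVec_smul, hx]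
    ext i j
    have h3 := congrFun (h2 (Pi.single j 1)) i
    rw [Matrix.mulVec_single_one] at h3
    rw [Matrix.one_apply]
    simpa [Pi.single_apply] using h3
  obtain ⟨g, hg, hgq⟩ : ∃ g ∈ G.toSubmodule, f * g * (k * f - f * k * f) ≠ 0 := by
    by_contra hc
    push Not at hc
    apply hkq
    ext i j
    have h2 : (k * f - f * k * f).mulVec (Pi.single j 1) = 0 := by
      refine hft _ fun x hx => ?_
      rw [Matrix.mulVec_mulVec, hc x hx, Matrix.zero_mulVec]
    have h3 := congrFun h2 i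
    rw [Matrix.mulVec_single_one] at h3
    exact h3
  obtain ⟨c, hc, hcne⟩ : ∃ c : K, f * g * (k * f - f * k * f) = c • f ∧ c ≠ 0 := by
    obtain ⟨c1, hc1'⟩ := hfc _ (hmulG g hg k hk)
    obtain ⟨c2, hc2⟩ := hfc _ (hmulG _ (hmulG g hg f hf) k hk)
    have h2 : f * g * (k * f - f * k * f) = (c1 - c2) • f := by
      rw [sub_smul, ← hc1', ← hc2]
      noncomm_ring
    refine ⟨c1 - c2, h2, ?_⟩
    intro h3
    rw [h3, zero_smul] at h2
    exact hgq h2
  set h : Matrix {j // s j = 1} {j // s j = 1} K := c⁻¹ • (f * g - f * g * f) with hh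
  have hhG : h ∈ G.toSubmodule :=
    Submodule.smul_mem _ _ (Submodule.sub_mem _ (hmulG f hf g hg) (hmulG _ (hmulG f hf g hg) f hf))
  have hhf : h * f = 0 := by
    rw [hh, Matrix.smul_mul, Matrix.sub_mul, Matrix.mul_assoc (f * g) f f, hff, sub_self, smul_zero]
  have hhk : h * k * f = f := by
    rw [hh, Matrix.smul_mul, Matrix.smul_mul]
    have h2 : (f * g - f * g * f) * k * f = c • f := by
      rw [← hc]
      noncomm_ring
    rw [h2, smul_smul, inv_mul_cancel₀ hcne, one_smul]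
  -- `l f ∈ G f`
  have hlf : ∀ l ∈ BB s 1 1 a, ∃ y ∈ G.toSubmodule, l * f = y * f := by
    rintro _ ⟨A, hA, hA', rfl⟩
    have hA0 : cmp s 0 A = A := hm_iff.2 (by simpa using hA')
    have h2 := hGEN K n ε ψ s a hG hs hcz A hA hA0
    clear hA0 hA' hA
    induction h2 using Submodule.span_induction with
    | mem X hX =>
      obtain ⟨B, hB, C, hC, hBC, rfl⟩ := hX
      rcases hBC with ⟨hB1, hC1⟩ | ⟨hB1, hC1⟩
      · have gB : Hm s 1 B := hm_iff.1 hB1
        have gC : Hm s (-1) C := hm_iff.1 hC1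
        have e1 : bq s 1 1 (B * C - C * B) = bq s 1 0 B * bq s 0 1 C := by
          have e2 : bq s 1 1 (B * C) = bq s 1 0 B * bq s 0 1 C := by
            refine bq_mul s 1 0 1 _ _ fun i k j hi hj hk => ?_
            left
            by_contra hc
            have := gB i k hc
            omega
          have e3 : bq s 1 1 (C * B) = 0 := by
            ext i j
            show (C * B) i.1 j.1 = 0
            rw [Matrix.mul_apply]
            refine Finset.sum_eq_zero fun k _ => ?_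
            have : B k j.1 = 0 := by
              by_contra hc
              have h1 := gB k j.1 hc
              have h2 := bd' hs k
              have hj := j.2
              omega
            rw [this, mul_zero]
          rw [bq_sub, e2, e3, sub_zero]
        have hb : bq s 1 0 B ∈ BB s 1 0 a := ⟨B, hB, by simpa using gB, rfl⟩
        have hb' : bq s 0 1 C ∈ BB s 0 1 a := ⟨C, hC, by simpa using gC, rfl⟩
        have h2 := hcomG _ (BB_mul hG.brk hs hb (mul_GG hG.brk hs hhG hb')) k hk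
        refine ⟨_, h2, ?_⟩
        rw [e1]
        have h4 : (bq s 1 0 B * (bq s 0 1 C * h) * k - k * (bq s 1 0 B * (bq s 0 1 C * h))) * f =
            bq s 1 0 B * bq s 0 1 C * (h * k * f) - k * bq s 1 0 B * bq s 0 1 C * (h * f) := by
          simp only [Matrix.mul_assoc, Matrix.sub_mul]
        rw [h4, hhf, hhk, Matrix.mul_zero, sub_zero]
      · have gB : Hm s 2 B := hm_iff.1 hB1
        have gC : Hm s (-2) C := hm_iff.1 hC1
        refine ⟨bq s 1 1 (B * C),
          NonUnitalAlgebra.subset_adjoin K ⟨B, hB, C, hC, gB, gC, rfl⟩, ?_⟩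
        have e3 : bq s 1 1 (C * B) = 0 := by
          ext i j
          show (C * B) i.1 j.1 = 0
          rw [Matrix.mul_apply]
          refine Finset.sum_eq_zero fun k _ => ?_
          have : B k j.1 = 0 := by
            by_contra hc
            have h1 := gB k j.1 hc
            have h2 := bd' hs k
            have hj := j.2
            omega
          rw [this, mul_zero]
        rw [bq_sub, e3, sub_zero]
    | zero => exact ⟨0, Submodule.zero_mem _, by rw [bq_zero]⟩
    | add x y _ _ hx hy =>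
      obtain ⟨x', hx', ex⟩ := hx
      obtain ⟨y', hy', ey⟩ := hy
      exact ⟨x' + y', Submodule.add_mem _ hx' hy', by rw [bq_add, Matrix.add_mul, ex, ey,
        Matrix.add_mul]⟩
    | smul c x _ hx =>
      obtain ⟨x', hx', ex⟩ := hx
      exact ⟨c • x', Submodule.smul_mem _ c hx', by rw [bq_smul, Matrix.smul_mul, ex,
        Matrix.smul_mul]⟩
  have hu : f.rank = 1 := by
    refine rank_one G.toSubmodule (BB s 1 1 a : Set (Matrix {j // s j = 1} {j // s j = 1} K)) f
      hf hff hf0 hfc (irr_top hTPI hG.brk hG.irr hG.comp hs) hcomG fun l hl x hx => ?_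
    obtain ⟨y, hy, hy'⟩ := hlf l hl
    exact ⟨x * y, hmulG x hx y hy, by rw [Matrix.mul_assoc, hy', Matrix.mul_assoc]⟩
  obtain ⟨hA, hB⟩ := hRK1 K {j // s j = 1} {j // s j = 0} f G.toSubmodule hff hu hf hfs hft
  have hT1 : BB s 1 0 a = ⊤ := by
    refine hA _ (fun x hx y hy => GG_mul hG.brk hs hx hy) fun v hv => ?_
    refine sep0 hSPB hG hs h1 v fun b hb => ?_
    refine hft _ fun x hx => ?_
    rw [Matrix.mulVec_mulVec, Matrix.mul_assoc]
    exact hv _ (GG_mul hG.brk hs hx hb)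
  have hT2 : BB s 0 1 a = ⊤ := by
    refine hB _ (fun x hx y hy => mul_GG hG.brk hs hx hy) fun v => ?_
    have h2 := gen0 hSPB hG hs h1 v
    refine Submodule.span_le.2 ?_ h2
    rintro _ ⟨b, hb, x, rfl⟩
    have h3 := Submodule.mem_map_of_mem (f := b.mulVecLin) (hfs x)
    rw [Submodule.map_span] at h3
    refine Submodule.span_mono ?_ h3
    rintro _ ⟨_, ⟨y, hy, u', rfl⟩, rfl⟩
    refine ⟨b * y, mul_GG hG.brk hs hy hb, u', ?_⟩
    show b.mulVec ((y * f).mulVec u') = (b * y * f).mulVec u'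
    rw [Matrix.mulVec_mulVec, Matrix.mul_assoc]
  refine hFIN K n ε ψ s a hG hs h1 h0 ?_ ?_
  · intro M
    have h2 : bq s 1 0 M ∈ BB s 1 0 a := by rw [hT1]; exact Submodule.mem_top
    obtain ⟨A, hA, _, hA'⟩ := h2
    exact ⟨A, hA, fun i j hi hj => congrFun (congrFun hA' ⟨i, hi⟩) ⟨j, hj⟩⟩
  · intro M
    have h2 : bq s 0 1 M ∈ BB s 0 1 a := by rw [hT2]; exact Submodule.mem_top
    obtain ⟨A, hA, _, hA'⟩ := h2
    exact ⟨A, hA, fun i j hi hj => congrFun (congrFun hA' ⟨i, hi⟩) ⟨j, hj⟩⟩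

end MT
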