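import Pool.Agent.Helper21.WE.TOPN

/-!
# TOPC, TOPH: the Lie theorems
-/

set_option autoImplicit false

open Matrix

namespace MT

open Wtx Topw in
/-- the types `p` and `w - p` have the same Hodge number -/
theorem perm_of {K : Type} [Field K] [CharZero K] {n w : ℕ}
    {h : Fin n → ℕ} {ψ : Matrix (Fin n) (Fin n) K} {P : Matrix.GeneralLinearGroup (Fin n) K}
    {a : Submodule K (Matrix (Fin n) (Fin n) K)}
    (hirs : Irs ψ a) (hgr : dg P (fun j => 2 * (h j : ℤ) - (w : ℤ)) ∈ a) :
    ∃ σ : Equiv.Perm (Fin n), ∀ j, h (σ j) + h j = w := by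
  obtain ⟨hdet, -, -, hiso⟩ := hirs
  set p : Matrix (Fin n) (Fin n) K := (P : Matrix (Fin n) (Fin n) K) with hp
  set q : Matrix (Fin n) (Fin n) K :=
    ((P⁻¹ : Matrix.GeneralLinearGroup (Fin n) K) : Matrix (Fin n) (Fin n) K) with hq
  have hpq : p * q = 1 := p_q P
  have hqp : q * p = 1 := q_p P
  set d : Fin n → ℤ := fun j => 2 * (h j : ℤ) - (w : ℤ) with hd
  have hdet' : (p.transpose * ψ * p).det ≠ 0 := by
    rw [Matrix.det_mul, Matrix.det_mul, Matrix.det_transpose]
    have hpd : p.det ≠ 0 := by
      intro h0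
      have := congrArg Matrix.det hpq
      rw [Matrix.det_mul, h0, zero_mul, Matrix.det_one] at this
      exact zero_ne_one this
    exact mul_ne_zero (mul_ne_zero hpd hdet) hpd
  have h1 := hiso _ hgr
  have h2 : p.transpose * ((dg P d).transpose * ψ + ψ * dg P d) * p = 0 := by
    rw [h1, Matrix.mul_zero, Matrix.zero_mul]
  have h3 : (dg P d).transpose = q.transpose * Matrix.diagonal (fun j => (d j : K)) *
      p.transpose := by
    unfold dg
    rw [Matrix.transpose_mul, Matrix.transpose_mul, Matrix.diagonal_transpose, Matrix.mul_assoc]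
  have h4 : Matrix.diagonal (fun j => (d j : K)) * (p.transpose * ψ * p) +
      p.transpose * ψ * p * Matrix.diagonal (fun j => (d j : K)) = 0 := by
    have hT : p.transpose * q.transpose = 1 := by
      rw [← Matrix.transpose_mul, hqp, Matrix.transpose_one]
    have e1 : p.transpose * ((dg P d).transpose * ψ) * p =
        Matrix.diagonal (fun j => (d j : K)) * (p.transpose * ψ * p) := by
      rw [h3]
      calc p.transpose * (q.transpose * Matrix.diagonal (fun j => (d j : K)) * p.transpose * ψ) * p
          = (p.transpose * q.transpose) * Matrix.diagonal (fun j => (d j : K)) *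
              (p.transpose * ψ * p) := by simp only [Matrix.mul_assoc]
        _ = _ := by rw [hT, Matrix.one_mul]
    have e2 : p.transpose * (ψ * dg P d) * p =
        p.transpose * ψ * p * Matrix.diagonal (fun j => (d j : K)) := by
      calc p.transpose * (ψ * dg P d) * p
          = p.transpose * ψ * p * Matrix.diagonal (fun j => (d j : K)) * (q * p) := by
            unfold dg
            simp only [Matrix.mul_assoc]
            rfl
        _ = _ := by rw [hqp, Matrix.mul_one]
    rw [Matrix.mul_add, Matrix.add_mul, e1, e2] at h2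
    exact h2
  have hgrad : ∀ i j, (p.transpose * ψ * p) i j ≠ 0 → d i + d j = 0 := by
    intro i j hij
    have h5 := congrFun (congrFun h4 i) j
    rw [Matrix.add_apply, Matrix.diagonal_mul, Matrix.mul_diagonal, Matrix.zero_apply] at h5
    have h6 : ((d i + d j : ℤ) : K) * (p.transpose * ψ * p) i j = 0 := by
      push_cast
      linear_combination h5
    exact Int.cast_eq_zero.mp ((mul_eq_zero.mp h6).resolve_right hij)
  obtain ⟨s, hs⟩ := Top9.exists_perm _ d hdet' hgrad
  refine ⟨s, fun j => ?_⟩
  have h5 := hs j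
  simp only [hd] at h5
  omega

theorem card_conj {n w : ℕ} {h : Fin n → ℕ} (σ : Equiv.Perm (Fin n))
    (hσ : ∀ j, h (σ j) + h j = w) (p q : ℕ) (hpq : p + q = w) :
    (Finset.univ.filter fun j => h j = p).card = (Finset.univ.filter fun j => h j = q).card := by
  refine Finset.card_bij (fun j _ => σ j) ?_ ?_ ?_
  · intro j hj
    simp only [Finset.mem_filter, Finset.mem_univ, true_and] at hj ⊢
    have := hσ j
    omega
  · intro i _ j _ h
    exact σ.injective h
  · intro j hj
    simp only [Finset.mem_filter, Finset.mem_univ, true_and] at hj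
    refine ⟨σ.symm j, ?_, σ.apply_symm_apply j⟩
    simp only [Finset.mem_filter, Finset.mem_univ, true_and]
    have h1 := hσ (σ.symm j)
    rw [σ.apply_symm_apply] at h1
    omega

theorem card_out {n w : ℕ} {h : Fin n → ℕ} (σ : Equiv.Perm (Fin n))
    (hσ : ∀ j, h (σ j) + h j = w) (m : ℕ) (hm : w < 2 * m) :
    n = 2 * (Finset.univ.filter fun j => h j = m).card +
      (Finset.univ.filter fun j => h j ≠ m ∧ h j + m ≠ w).card := by
  have h1 : (Finset.univ.filter fun j => h j + m = w).card =
      (Finset.univ.filter fun j => h j = m).card := by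
    by_cases hw : m ≤ w
    · have h2 : (Finset.univ.filter fun j => h j + m = w) =
          (Finset.univ.filter fun j => h j = w - m) := by
        ext j
        simp only [Finset.mem_filter, Finset.mem_univ, true_and]
        omega
      rw [h2]
      exact card_conj σ hσ (w - m) m (by omega)
    · have h2 : (Finset.univ.filter fun j => h j + m = w) = ∅ := by
        ext j
        simp only [Finset.mem_filter, Finset.mem_univ, true_and, Finset.notMem_empty, iff_false]
        omega
      have h3 : (Finset.univ.filter fun j => h j = m) = ∅ := by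
        ext j
        simp only [Finset.mem_filter, Finset.mem_univ, true_and, Finset.notMem_empty, iff_false]
        have := hσ j
        omega
      rw [h2, h3]
  have h2 : (Finset.univ.filter fun j => h j ≠ m ∧ h j + m ≠ w) =
      (Finset.univ.filter fun j => ¬ (h j = m ∨ h j + m = w)) := by
    ext j
    simp only [Finset.mem_filter, Finset.mem_univ, true_and, not_or]
  have h3 := Finset.card_filter_add_card_filter_not (s := (Finset.univ : Finset (Fin n)))
    (fun j => h j = m ∨ h j + m = w)
  have h4 : (Finset.univ.filter fun j => h j = m ∨ h j + m = w).card =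
      (Finset.univ.filter fun j => h j = m).card +
        (Finset.univ.filter fun j => h j + m = w).card := by
    rw [Finset.filter_or, Finset.card_union_of_disjoint]
    rw [Finset.disjoint_filter]
    intro j _ h5
    omega
  rw [h4, h1, Finset.card_univ, Fintype.card_fin] at h3
  rw [h2]
  omega

/-- a common divisor of the Hodge numbers divides the sum of the inner ones -/
theorem dvd_inn {n : ℕ} {h : Fin n → ℕ} (w m u : ℕ)
    (hu : ∀ p : ℕ, u ∣ (Finset.univ.filter fun j => h j = p).card) :
    u ∣ (Finset.univ.filter fun j => h j ≠ m ∧ h j + m ≠ w).card := by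
  rw [Finset.card_eq_sum_card_fiberwise (f := h) (t := Finset.univ.image h)
    (fun j _ => Finset.mem_coe.mpr (Finset.mem_image_of_mem h (Finset.mem_univ j)))]
  refine Finset.dvd_sum fun x _ => ?_
  rw [Finset.filter_filter]
  by_cases hx : x ≠ m ∧ x + m ≠ w
  · have h1 : (Finset.univ.filter fun j => (h j ≠ m ∧ h j + m ≠ w) ∧ h j = x) =
        (Finset.univ.filter fun j => h j = x) := by
      ext j
      simp only [Finset.mem_filter, Finset.mem_univ, true_and]
      constructor
      · exact fun h => h.2
      · rintro rfl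
        exact ⟨hx, rfl⟩
    rw [h1]
    exact hu x
  · have h1 : (Finset.univ.filter fun j => (h j ≠ m ∧ h j + m ≠ w) ∧ h j = x) = ∅ := by
      ext j
      simp only [Finset.mem_filter, Finset.mem_univ, true_and, Finset.notMem_empty, iff_false]
      rintro ⟨h2, rfl⟩
      exact hx h2
    rw [h1, Finset.card_empty]
    exact dvd_zero u

/-- `(2, 8)` -/
theorem not_exc {n w m : ℕ} {h : Fin n → ℕ} (σ : Equiv.Perm (Fin n))
    (hσ : ∀ j, h (σ j) + h j = w) (hm : w < 2 * m) (hC : Cop h) (hT : ¬ Two w m h) :
    ¬ Exc w m h := by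
  rintro ⟨h2, h8⟩
  have h3 := hC 2 fun p => ?_
  · omega
  by_cases hp : p = m
  · rw [hp, h2]
  by_cases hp' : p + m = w
  · rw [card_conj σ hσ p m hp', h2]
  by_cases hi : ∃ i, h i = p
  swap
  · have h4 : (Finset.univ.filter fun j => h j = p) = ∅ := by
      ext j
      simp only [Finset.mem_filter, Finset.mem_univ, true_and, Finset.notMem_empty, iff_false]
      exact fun h5 => hi ⟨j, h5⟩
    rw [h4, Finset.card_empty]
    exact dvd_zero 2
  obtain ⟨i, hi⟩ := hi
  have h4 : ∀ j, (h j ≠ m ∧ h j + m ≠ w) → h j ≠ p → h j + p = w := by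
    intro j hj hjp
    by_contra hne
    exact hT ⟨j, i, hj, ⟨by omega, by omega⟩, by omega, by omega⟩
  by_cases hpw : 2 * p = w
  · have h5 : (Finset.univ.filter fun j => h j ≠ m ∧ h j + m ≠ w) =
        (Finset.univ.filter fun j => h j = p) := by
      ext j
      simp only [Finset.mem_filter, Finset.mem_univ, true_and]
      constructor
      · intro hj
        by_contra hne
        have := h4 j hj hne
        omega
      · intro hj
        exact ⟨by omega, by omega⟩
    rw [h5] at h8
    rw [h8]
    norm_num
  · have hpw' : p ≤ w := by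
      have := hσ i
      omega
    have h5 : (Finset.univ.filter fun j => h j ≠ m ∧ h j + m ≠ w) =
        (Finset.univ.filter fun j => h j = p ∨ h j = w - p) := by
      ext j
      simp only [Finset.mem_filter, Finset.mem_univ, true_and]
      constructor
      · intro hj
        by_cases hne : h j = p
        · exact Or.inl hne
        · have := h4 j hj hne
          right
          omega
      · intro hj
        rcases hj with hj | hj
        · exact ⟨by omega, by omega⟩
        · have := hσ i
          exact ⟨by omega, by omega⟩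
    have h6 : (Finset.univ.filter fun j => h j = p ∨ h j = w - p).card =
        (Finset.univ.filter fun j => h j = p).card +
          (Finset.univ.filter fun j => h j = w - p).card := by
      rw [Finset.filter_or, Finset.card_union_of_disjoint]
      rw [Finset.disjoint_filter]
      intro j _ h5
      omega
    rw [h5, h6, card_conj σ hσ (w - p) p (by omega)] at h8
    have h7 : (Finset.univ.filter fun j => h j = p).card = 4 := by omega
    rw [h7]
    norm_num

theorem dg_top {K : Type} [Field K] {n w : ℕ} (h : Fin n → ℕ)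
    (P : Matrix.GeneralLinearGroup (Fin n) K) :
    dg P (fun j => 2 * (h j : ℤ) - (w : ℤ)) = (P : Matrix (Fin n) (Fin n) K) *
      Matrix.diagonal (fun j => 2 * (h j : K) - (w : K)) *
      ((P⁻¹ : Matrix.GeneralLinearGroup (Fin n) K) : Matrix (Fin n) (Fin n) K) := by
  unfold dg
  congr 3
  funext j
  push_cast
  rfl

/-- divisibility over the integers -/
theorem dvd_int {n w u : ℕ} {h : Fin n → ℕ}
    (hu : ∀ p : ℤ, u ∣ (Finset.univ.filter fun j => 2 * (h j : ℤ) - (w : ℤ) = p).card) (p : ℕ) :
    u ∣ (Finset.univ.filter fun j => h j = p).card := by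
  have h1 : (Finset.univ.filter fun j => h j = p) =
      (Finset.univ.filter fun j => 2 * (h j : ℤ) - (w : ℤ) = 2 * (p : ℤ) - (w : ℤ)) := by
    ext j
    simp only [Finset.mem_filter, Finset.mem_univ, true_and]
    omega
  rw [h1]
  exact hu _

theorem sgm_one {n w m : ℕ} {h : Fin n → ℕ} (j : Fin n) : sgm w m h j = 1 ↔ h j = m := by
  unfold sgm
  split_ifs with h1 h2
  · simp [h1]
  · simp [h1]
  · simp [h1]

theorem sgm_neg {n w m : ℕ} {h : Fin n → ℕ} (hm : w < 2 * m) (j : Fin n) :
    sgm w m h j = -1 ↔ h j + m = w := by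
  unfold sgm
  split_ifs with h1 h2
  · constructor
    · intro h'; exact h'.elim
    · intro h'; omega
  · simp [h2]
  · constructor
    · intro h'; exact h'.elim
    · intro h'; omega

theorem sgm_zero {n w m : ℕ} {h : Fin n → ℕ} (j : Fin n) :
    sgm w m h j = 0 ↔ h j ≠ m ∧ h j + m ≠ w := by
  unfold sgm
  split_ifs with h1 h2
  · simp [h1]
  · constructor
    · intro h'; exact h'.elim
    · intro h'; omega
  · simp [h1, h2]

theorem sgm_abs {n w m : ℕ} {h : Fin n → ℕ} (j : Fin n) : |sgm w m h j| ≤ 1 := by
  unfold sgm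
  split_ifs <;> simp

/-- TOPC -/
theorem st_TOPC (hTOPG : ST_TOPG) (hTOPN : ST_TOPN) (hCZC : ST_CZC) : ST_TOPC := by
  intro K _ _ _ n w h ψ P a hT hsym hirs hgr
  have hgr' := hgr
  rw [dg_top] at hgr'
  obtain ⟨m, hm, hin, h1 | ⟨hi, hj, hC, h2⟩ | h3⟩ := hT
  · exact hTOPG K n w h ψ P a ⟨m, hm, hin, Or.inl h1⟩ hirs.1 hsym hirs.2.1 hirs.2.2.1 hirs.2.2.2
      hgr'
  · obtain ⟨σ, hσ⟩ := perm_of hirs hgr
    refine hTOPN K n w m h ψ P a hm hin hj hi ?_ hsym hirs hgr fun hs => ?_
    · by_cases hTwo : Two w m h
      · exact Or.inl hTwo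
      · rcases h2 with h2 | h2 | h2
        · exact Or.inl h2
        · exact Or.inr (Or.inl ⟨h2, not_exc σ hσ hm hC hTwo⟩)
        · exact Or.inr (Or.inr h2)
    · refine hCZC K n ((-1) ^ w) ψ P (sgm w m h) (fun j => 2 * (h j : ℤ) - (w : ℤ))
        (2 * (m : ℤ) - (w : ℤ)) a hsym (neg_one_pow_eq_or K w) hirs sgm_abs ?_ ?_ hs hgr ?_ ?_
      · obtain ⟨j, hj⟩ := hj
        exact ⟨j, (sgm_one j).mpr hj⟩
      · obtain ⟨j, hj⟩ := hin
        exact ⟨j, (sgm_zero j).mpr hj⟩
      · intro j hj
        rw [(sgm_one j).mp hj]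
      · intro u hu
        exact hC u fun p => dvd_int hu p
  · exact hTOPG K n w h ψ P a ⟨m, hm, hin, Or.inr h3⟩ hirs.1 hsym hirs.2.1 hirs.2.2.1 hirs.2.2.2
      hgr'

/-- TOPH -/
theorem st_TOPH (hTOPG : ST_TOPG) (hTOPN : ST_TOPN) (hCZH : ST_CZH) : ST_TOPH := by
  intro n w h ψ P a hT hsym hirs hgr hσ hE
  have hgr' := hgr
  rw [dg_top] at hgr'
  obtain ⟨m, hm, hin, h1 | ⟨hi, hj, h2⟩ | h3⟩ := hT
  · exact hTOPG ℂ n w h ψ P a ⟨m, hm, hin, Or.inl h1⟩ hirs.1 hsym hirs.2.1 hirs.2.2.1 hirs.2.2.2
      hgr'
  · obtain ⟨τ, hτ⟩ := perm_of hirs hgr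
    have hn := card_out τ hτ m hm
    have ha : 0 < (Finset.univ.filter fun j => h j = m).card := by
      obtain ⟨j, hj⟩ := hj
      exact Finset.card_pos.mpr ⟨j, by simpa using hj⟩
    have hb : 0 < (Finset.univ.filter fun j => h j ≠ m ∧ h j + m ≠ w).card := by
      obtain ⟨j, hj⟩ := hin
      exact Finset.card_pos.mpr ⟨j, Finset.mem_filter.mpr ⟨Finset.mem_univ j, hj⟩⟩
    refine hTOPN ℂ n w m h ψ P a hm hin hj hi ?_ hsym hirs hgr fun hs => ?_
    · rcases h2 with ⟨-, h2⟩ | h2 | h2
      · exact Or.inl h2
      · exact Or.inr (Or.inl h2)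
      · exact Or.inr (Or.inr h2)
    · have hs0 : (Finset.univ.filter fun j => sgm w m h j = 0) =
          (Finset.univ.filter fun j => h j ≠ m ∧ h j + m ≠ w) := by
        ext j
        simp only [Finset.mem_filter, Finset.mem_univ, true_and]
        exact sgm_zero j
      have hs1 : (Finset.univ.filter fun j => sgm w m h j = 1) =
          (Finset.univ.filter fun j => h j = m) := by
        ext j
        simp only [Finset.mem_filter, Finset.mem_univ, true_and]
        exact sgm_one j
      refine hCZH n ((-1) ^ w) ψ P (sgm w m h) (fun j => 2 * (h j : ℤ) - (w : ℤ))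
        (2 * (m : ℤ) - (w : ℤ)) a hsym (neg_one_pow_eq_or ℂ w) hirs sgm_abs ?_ ?_ hs hgr ?_ ?_ hσ
        hE ?_ ?_
      · obtain ⟨j, hj⟩ := hj
        exact ⟨j, (sgm_one j).mpr hj⟩
      · obtain ⟨j, hj⟩ := hin
        exact ⟨j, (sgm_zero j).mpr hj⟩
      · intro j hj
        rw [(sgm_one j).mp hj]
      · intro j hj
        have := (sgm_neg hm j).mp hj
        omega
      · intro u hu
        have hu' : ∀ p : ℕ, u ∣ (Finset.univ.filter fun j => h j = p).card := fun p => dvd_int hu p
        rcases h2 with ⟨hS, -⟩ | ⟨hL, -⟩ | hL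
        · exact hS u hu'
        · have h4 := Nat.le_of_dvd ha (hu' m)
          unfold Lrg at hL
          generalize (Finset.univ.filter fun j => h j = m).card = A at *
          generalize (Finset.univ.filter fun j => h j ≠ m ∧ h j + m ≠ w).card = B at *
          nlinarith
        · have h4 := Nat.le_of_dvd hb (dvd_inn w m u hu')
          unfold Low at hL
          generalize (Finset.univ.filter fun j => h j = m).card = A at *
          generalize (Finset.univ.filter fun j => h j ≠ m ∧ h j + m ≠ w).card = B at *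
          nlinarith
      · rw [hs0, hs1]
        rcases h2 with ⟨-, i, j, hI, hJ, hne, hne'⟩ | ⟨hL, -⟩ | hL
        · right
          refine ⟨i, j, (sgm_zero i).mpr hI, (sgm_zero j).mpr hJ, ?_, ?_⟩
          · omega
          · omega
        · left
          unfold Lrg at hL
          generalize (Finset.univ.filter fun j => h j = m).card = A at *
          generalize (Finset.univ.filter fun j => h j ≠ m ∧ h j + m ≠ w).card = B at *
          intro hB
          nlinarith
        · left
          unfold Low at hL
          generalize (Finset.univ.filter fun j => h j = m).card = A at *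
          generalize (Finset.univ.filter fun j => h j ≠ m ∧ h j + m ≠ w).card = B at *
          intro hB
          nlinarith
  · exact hTOPG ℂ n w h ψ P a ⟨m, hm, hin, Or.inr h3⟩ hirs.1 hsym hirs.2.1 hirs.2.2.1 hirs.2.2.2
      hgr'

end MT
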