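import Pool.Agent.Helper21.WD.TOPW
import Pool.Agent.Helper21.WE.Stmts

/-!
# TOPN: the Lie theorem, if `Cen` is zero
-/

set_option autoImplicit false

open Matrix

namespace MT

open Wtx in
/-- elements of degree `k` -/
theorem dg_brk {K : Type} [Field K] [CharZero K] {n : ℕ} (P : Matrix.GeneralLinearGroup (Fin n) K)
    (s : Fin n → ℤ) (k : ℤ) (B : Matrix (Fin n) (Fin n) K) :
    dg P s * B - B * dg P s = (k : K) • B ↔
      cmp s k (((P⁻¹ : Matrix.GeneralLinearGroup (Fin n) K) : Matrix (Fin n) (Fin n) K) * B *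
        (P : Matrix (Fin n) (Fin n) K)) =
      ((P⁻¹ : Matrix.GeneralLinearGroup (Fin n) K) : Matrix (Fin n) (Fin n) K) * B *
        (P : Matrix (Fin n) (Fin n) K) := by
  set p : Matrix (Fin n) (Fin n) K := (P : Matrix (Fin n) (Fin n) K) with hp
  set q : Matrix (Fin n) (Fin n) K :=
    ((P⁻¹ : Matrix.GeneralLinearGroup (Fin n) K) : Matrix (Fin n) (Fin n) K) with hq
  have hpq : p * q = 1 := p_q P
  have hqp : q * p = 1 := q_p P
  set S : Matrix (Fin n) (Fin n) K := Matrix.diagonal (fun j => (s j : K)) with hS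
  have hT : dg P s = p * S * q := rfl
  obtain ⟨B', hB'⟩ : ∃ B', B' = q * B * p := ⟨_, rfl⟩
  have hBB : B = p * B' * q := by
    rw [hB']
    calc B = (p * q) * B * (p * q) := by rw [hpq, Matrix.one_mul, Matrix.mul_one]
      _ = p * (q * B * p) * q := by simp only [Matrix.mul_assoc]
  rw [← hB', hT]
  have h1 : p * S * q * B - B * (p * S * q) = p * (S * B' - B' * S) * q := by
    rw [hBB, Matrix.mul_sub, Matrix.sub_mul]
    congr 1
    · calc p * S * q * (p * B' * q) = p * S * (q * p) * B' * q := by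
            simp only [Matrix.mul_assoc]
        _ = p * (S * B') * q := by rw [hqp, Matrix.mul_one]; simp only [Matrix.mul_assoc]
    · calc p * B' * q * (p * S * q) = p * B' * (q * p) * S * q := by
            simp only [Matrix.mul_assoc]
        _ = p * (B' * S) * q := by rw [hqp, Matrix.mul_one]; simp only [Matrix.mul_assoc]
  have h2 : p * S * q * B - B * (p * S * q) = (k : K) • B ↔
      S * B' - B' * S = (k : K) • B' := by
    rw [h1]
    constructor
    · intro h
      have h3 : q * (p * (S * B' - B' * S) * q) * p = q * ((k : K) • B) * p := by rw [h]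
      rw [Matrix.mul_smul, Matrix.smul_mul, ← hB'] at h3
      rw [← h3]
      calc S * B' - B' * S = (q * p) * (S * B' - B' * S) * (q * p) := by
            rw [hqp, Matrix.one_mul, Matrix.mul_one]
        _ = q * (p * (S * B' - B' * S) * q) * p := by simp only [Matrix.mul_assoc]
    · intro h
      rw [h, Matrix.mul_smul, Matrix.smul_mul, ← hBB]
  rw [h2]
  constructor
  · intro h
    ext i j
    have h3 := congrFun (congrFun h i) j
    rw [Matrix.sub_apply, hS, Matrix.diagonal_mul, Matrix.mul_diagonal, Matrix.smul_apply,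
      smul_eq_mul] at h3
    by_cases hij : s i - s j = k
    · simp [cmp, hij]
    · have h4 : ((s i - s j - k : ℤ) : K) * B' i j = 0 := by
        push_cast
        linear_combination h3
      rcases mul_eq_zero.mp h4 with h5 | h5
      · exact absurd (Int.cast_eq_zero.mp h5) (by omega)
      · simp [cmp, hij, h5]
  · intro h
    ext i j
    rw [Matrix.sub_apply, hS, Matrix.diagonal_mul, Matrix.mul_diagonal, Matrix.smul_apply,
      smul_eq_mul]
    by_cases hij : s i - s j = k
    · rw [← hij]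
      push_cast
      ring
    · have h4 : B' i j = 0 := by
        rw [← h]
        simp [cmp, hij]
      rw [h4]
      ring

open Wtx in
/-- from `Cen` to `Cz` -/
theorem cz_of_cen {K : Type} [Field K] [CharZero K] {n : ℕ}
    (P : Matrix.GeneralLinearGroup (Fin n) K) (s : Fin n → ℤ)
    (a : Submodule K (Matrix (Fin n) (Fin n) K)) (h : ∀ A ∈ Cen a (dg P s), A = 0) :
    Cz s (a.comap (cjP P)) := by
  set p : Matrix (Fin n) (Fin n) K := (P : Matrix (Fin n) (Fin n) K) with hp
  set q : Matrix (Fin n) (Fin n) K :=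
    ((P⁻¹ : Matrix.GeneralLinearGroup (Fin n) K) : Matrix (Fin n) (Fin n) K) with hq
  have hpq : p * q = 1 := p_q P
  have hqp : q * p = 1 := q_p P
  intro A hA hAB
  have hA' : p * A * q ∈ a := hA
  have h0 : ∀ X : Matrix (Fin n) (Fin n) K, p * (q * X * p) * q = X := by
    intro X
    calc p * (q * X * p) * q = (p * q) * X * (p * q) := by simp only [Matrix.mul_assoc]
      _ = X := by rw [hpq, Matrix.one_mul, Matrix.mul_one]
  have h1 : p * A * q = 0 := by
    refine h _ ⟨hA', fun B hB hB1 => ?_⟩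
    have h2 := hAB (q * B * p) (show p * (q * B * p) * q ∈ a by rw [h0]; exact hB) (by
      rcases hB1 with hB1 | hB1
      · left
        exact (dg_brk P s 1 B).mp (by rw [Int.cast_one, one_smul]; exact hB1)
      · right
        exact (dg_brk P s (-1) B).mp (by rw [Int.cast_neg, Int.cast_one, neg_one_smul]; exact hB1))
    calc p * A * q * B = p * (A * (q * B * p)) * q := by
          calc p * A * q * B = p * A * q * B * (p * q) := by rw [hpq, Matrix.mul_one]
            _ = p * (A * (q * B * p)) * q := by simp only [Matrix.mul_assoc]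
      _ = p * (q * B * p * A) * q := by rw [h2]
      _ = (p * q) * B * (p * A * q) := by simp only [Matrix.mul_assoc]
      _ = B * (p * A * q) := by rw [hpq, Matrix.one_mul]
  calc A = (q * p) * A * (q * p) := by rw [hqp, Matrix.one_mul, Matrix.mul_one]
    _ = q * (p * A * q) * p := by simp only [Matrix.mul_assoc]
    _ = 0 := by rw [h1, Matrix.mul_zero, Matrix.zero_mul]

open Top10 Topw in
/-- the Lie theorem, graded form -/
theorem graded_TOPN (hADD : ST_ADD) (hSHF : ST_SHF) (hGRA : ST_GRA) (hGCN : ST_GCN)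
    (hWT4 : ST_WT4N) (hWT5 : ST_WT5N) (K : Type) [Field K] [CharZero K] [IsAlgClosed K]
    (n w m : ℕ) (h : Fin n → ℕ) (ψ : Matrix (Fin n) (Fin n) K)
    (a : Submodule K (Matrix (Fin n) (Fin n) K)) (hm : w < 2 * m) (hin : ∃ j, Inn w m (h j))
    (hjm : ∃ j, h j = m) (hi : Isol w h m)
    (hcore : Two w m h ∨ (Lrg w m h ∧ ¬ Exc w m h) ∨ Low w m h)
    (hG : GrD ((-1 : K) ^ w) ψ (fun j => 2 * (h j : ℤ) - (w : ℤ)) a)
    (hC : Matrix.diagonal (fun j => (sgm w m h j : K)) ∈ a → Cz (sgm w m h) a) :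
    ∀ A : Matrix (Fin n) (Fin n) K, A.transpose * ψ + ψ * A = 0 → A ∈ a := by
  classical
  set d : Fin n → ℤ := fun j => 2 * (h j : ℤ) - (w : ℤ) with hd
  have hdj : ∀ j, d j = 2 * (h j : ℤ) - (w : ℤ) := fun j => rfl
  obtain ⟨N, hN⟩ : ∃ N : ℤ, N = 2 * (m : ℤ) - (w : ℤ) := ⟨_, rfl⟩
  have hN0 : 0 < N := by omega
  have hInn : ∀ j, (d j ≠ N ∧ d j ≠ -N) → Inn w m (h j) := by
    intro j hj
    rw [hdj, hN] at hj
    exact ⟨by omega, by omega⟩
  have hInn' : ∀ j, Inn w m (h j) → d j ≠ N ∧ d j ≠ -N := by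
    intro j hj
    obtain ⟨h1, h2⟩ := hj
    rw [hdj, hN]
    exact ⟨by omega, by omega⟩
  have hIso : IsoZ d N := by
    intro i j k h1 h2 h3
    obtain ⟨e1, e2, e3⟩ := hi i j k (hInn i h1) (hInn j h2) (hInn k h3)
    rw [hdj, hdj, hdj, hN]
    exact ⟨by omega, by omega, by omega⟩
  obtain ⟨s, hs⟩ := Top9.exists_perm ψ d hG.unit hG.grad
  have hsym : ∀ i, ∃ j, d j = - d i := fun i => ⟨s i, hs i⟩
  obtain ⟨c, hc⟩ : ∃ c : ℤ → ℤ,
      ∀ x, c x = 0 * x + if x = N then 1 else if x = -N then -1 else 0 :=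
    ⟨fun x => 0 * x + if x = N then 1 else if x = -N then -1 else 0, fun x => rfl⟩
  obtain ⟨hodd, hadd⟩ := hSHF n d N hN0 hsym hIso 0 1 c hc
  have hcd := hADD K n _ ψ d a hG c hodd hadd
  have hgs := regrade hGRA hG c hodd hcd
  have hc1 : ∀ x, c x = 1 ↔ x = N := by
    intro x
    rw [hc]
    by_cases h1 : x = N
    · simp [h1]
    · rw [if_neg h1]
      by_cases h2 : x = -N
      · rw [if_pos h2]
        constructor
        · intro h3; omega
        · intro h3; exact absurd h3 h1
      · rw [if_neg h2]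
        constructor
        · intro h3; omega
        · intro h3; exact absurd h3 h1
  have hc0 : ∀ x, c x = 0 ↔ x ≠ N ∧ x ≠ -N := by
    intro x
    rw [hc]
    by_cases h1 : x = N
    · rw [if_pos h1]
      constructor
      · intro h3; omega
      · intro h3; exact absurd h1 h3.1
    · rw [if_neg h1]
      by_cases h2 : x = -N
      · rw [if_pos h2]
        constructor
        · intro h3; omega
        · intro h3; exact absurd h2 h3.2
      · rw [if_neg h2]
        constructor
        · intro _; exact ⟨h1, h2⟩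
        · intro _; omega
  have hab : ∀ j, |c (d j)| ≤ 1 := by
    intro j
    rw [abs_le]
    rw [hc]
    split_ifs <;> constructor <;> omega
  have hcard1 : (Finset.univ.filter fun j => c (d j) = 1) =
      (Finset.univ.filter fun j => h j = m) := by
    ext j
    simp only [Finset.mem_filter, Finset.mem_univ, true_and]
    rw [hc1, hdj, hN]
    omega
  have hsg : (fun j => c (d j)) = sgm w m h := by
    funext j
    unfold sgm
    rw [hc, hdj, hN]
    by_cases h1 : h j = m
    · rw [if_pos (by omega), if_pos h1]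
      ring
    · by_cases h2 : h j + m = w
      · rw [if_neg (by omega), if_pos (by omega), if_neg h1, if_pos h2]
        ring
      · rw [if_neg (by omega), if_neg (by omega), if_neg h1, if_neg h2]
        ring
  have hcz : Cz (fun j => c (d j)) a := by
    rw [hsg]
    refine hC ?_
    have h1 : (fun j => (sgm w m h j : K)) = fun j => ((c (d j) : ℤ) : K) := by
      rw [← hsg]
    rw [h1]
    exact hcd
  obtain ⟨jm, hjm⟩ := hjm
  have hcard0 : (Finset.univ.filter fun j => c (d j) = 0) =
      (Finset.univ.filter fun j => h j ≠ m ∧ h j + m ≠ w) := by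
    ext j
    simp only [Finset.mem_filter, Finset.mem_univ, true_and]
    rw [hc0]
    exact ⟨hInn j, hInn' j⟩
  rcases hcore with ⟨i₁, j₁, hI1, hJ1, hne, hne'⟩ | ⟨hlt, hexc⟩ | hlt
  · obtain ⟨c', hc'⟩ : ∃ c' : ℤ → ℤ,
        ∀ x, c' x = 1 * x + if x = N then -N else if x = -N then -(-N) else 0 :=
      ⟨fun x => 1 * x + if x = N then -N else if x = -N then -(-N) else 0, fun x => rfl⟩
    obtain ⟨hodd', hadd'⟩ := hSHF n d N hN0 hsym hIso 1 (-N) c' hc'
    have hgd := regrade hGRA hG c' hodd' (hADD K n _ ψ d a hG c' hodd' hadd')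
    have hc'0 : ∀ x, x ≠ N → x ≠ -N → c' x = x := by
      intro x h1 h2
      rw [hc', if_neg h1, if_neg h2]
      ring
    refine hGCN K n _ ψ (fun j => c (d j)) (fun j => c' (d j)) a hgs hgd hab ?_ ?_ ?_ hcz
    · exact ⟨jm, (hc1 _).mpr (by rw [hdj, hjm, hN])⟩
    · intro j hj
      rw [hc']
      by_cases h1 : d j = N
      · rw [if_pos h1]; omega
      · by_cases h2 : d j = -N
        · rw [if_neg h1, if_pos h2]; omega
        · exact absurd ((hc0 _).mpr ⟨h1, h2⟩) hj
    · obtain ⟨a1, a2⟩ := hInn' i₁ hI1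
      obtain ⟨b1, b2⟩ := hInn' j₁ hJ1
      refine ⟨i₁, j₁, (hc0 _).mpr ⟨a1, a2⟩, (hc0 _).mpr ⟨b1, b2⟩, ?_, ?_⟩
      · rw [hc'0 _ a1 a2, hc'0 _ b1 b2, hdj, hdj]
        omega
      · rw [hc'0 _ a1 a2, hc'0 _ b1 b2, hdj, hdj]
        omega
  · refine hWT4 K n _ ψ (fun j => c (d j)) a hgs hab ?_ ?_ ?_ hcz
    · exact ⟨jm, (hc1 _).mpr (by rw [hdj, hjm, hN])⟩
    · rw [hcard1, hcard0]; exact hlt
    · rw [hcard1, hcard0]; exact hexc
  · refine hWT5 K n _ ψ (fun j => c (d j)) a hgs hab ?_ ?_ hcz
    · obtain ⟨j, hj⟩ := hin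
      exact ⟨j, (hc0 _).mpr (hInn' j hj)⟩
    · rw [hcard1, hcard0]; exact hlt

open Wtx in
/-- TOPN -/
theorem st_TOPN (hADD : ST_ADD) (hSHF : ST_SHF) (hGRA : ST_GRA) (hGCN : ST_GCN)
    (hWT4 : ST_WT4N) (hWT5 : ST_WT5N) : ST_TOPN := by
  intro K _ _ _ n w m h ψ P a hm hin hjm hi hcore hsym hirs hgr hcen
  obtain ⟨hdet, hbrk, hirr, hiso⟩ := hirs
  set d : Fin n → ℤ := fun j => 2 * (h j : ℤ) - (w : ℤ) with hd
  have hD : Matrix.diagonal (fun j => (d j : K)) ∈ a.comap (cjP P) := hgr
  have hG0 := chg (s := fun _ => 0) P hdet hsym (neg_one_pow_eq_or K w) hbrk hirr hiso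
      (fun _ _ _ => rfl) (by
        intro A hA x
        by_cases hx : x = 0
        · have : cmp (fun _ : Fin n => (0 : ℤ)) x A = A := by
            ext i j
            simp [cmp, hx]
          rw [this]
          exact hA
        · have : cmp (fun _ : Fin n => (0 : ℤ)) x A = 0 := by
            ext i j
            simp only [cmp, Matrix.of_apply, Matrix.zero_apply]
            rw [if_neg (by omega)]
          rw [this]
          exact Submodule.zero_mem _)
  refine back P (graded_TOPN hADD hSHF hGRA hGCN hWT4 hWT5 K n w m h _ _ hm hin hjm hi hcore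
    (chg P hdet hsym (neg_one_pow_eq_or K w) hbrk hirr hiso ?_
      (hGRA K n _ d fun A hA => hG0.brk _ hD _ hA)) ?_)
  · intro i j hij
    have h1 := congrFun (congrFun (hG0.iso _ hD) i) j
    rw [Matrix.diagonal_transpose, Matrix.add_apply, Matrix.diagonal_mul,
      Matrix.mul_diagonal, Matrix.zero_apply] at h1
    have h2 : ((d i + d j : ℤ) : K) * ((P : Matrix (Fin n) (Fin n) K).transpose * ψ *
        (P : Matrix (Fin n) (Fin n) K)) i j = 0 := by
      rw [← h1]
      push_cast
      ring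
    have h3 := (mul_eq_zero.mp h2).resolve_right hij
    exact Int.cast_eq_zero.mp h3
  · intro hs
    exact cz_of_cen P _ a (hcen hs)

end MT
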