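import Pool.Agent.Helper21.WE.TOS

/-!
# TOSC, TOSH
-/

set_option autoImplicit false

open Matrix

namespace MT

theorem wideC_pos {n w : ℕ} {h : Fin n → ℕ} (hT : WideC w h) : 1 ≤ n := by
  obtain ⟨m, -, ⟨j, -⟩, -⟩ := hT
  have := j.2
  omega

theorem wideH_pos {n w : ℕ} {h : Fin n → ℕ} (hT : WideH w h) : 1 ≤ n := by
  obtain ⟨m, -, ⟨j, -⟩, -⟩ := hT
  have := j.2
  omega

theorem wideC_of_cop {n w : ℕ} {h : Fin n → ℕ} (hT : WideH w h) (hC : Cop h) : WideC w h := by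
  obtain ⟨m, hm, hin, h1 | ⟨hi, hj, h2⟩ | h3⟩ := hT
  · exact ⟨m, hm, hin, Or.inl h1⟩
  · refine ⟨m, hm, hin, Or.inr (Or.inl ⟨hi, hj, hC, ?_⟩)⟩
    rcases h2 with ⟨-, h2⟩ | ⟨h2, -⟩ | h2
    · exact Or.inl h2
    · exact Or.inr (Or.inl h2)
    · exact Or.inr (Or.inr h2)
  · exact ⟨m, hm, hin, Or.inr (Or.inr h3)⟩

theorem cop_of_mid {n w : ℕ} {h : Fin n → ℕ}
    (hM : (Finset.univ.filter fun j => 2 * h j = w).card = 1) : Cop h := by
  intro u hu
  obtain ⟨j, hj⟩ := Finset.card_pos.mp (show 0 < (Finset.univ.filter fun j => 2 * h j = w).card by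
    omega)
  have hj' : 2 * h j = w := (Finset.mem_filter.mp hj).2
  have h1 : (Finset.univ.filter fun i => h i = h j) = (Finset.univ.filter fun i => 2 * h i = w) := by
    ext i
    simp only [Finset.mem_filter, Finset.mem_univ, true_and]
    omega
  have h2 := hu (h j)
  rw [h1, hM] at h2
  exact Nat.dvd_one.mp h2

theorem st_TOSC (hRED : ST_RED) (hTOP : ST_TOPC) : ST_TOSC := by
  intro K₀ K _ _ _ _ _ n w h ψ P a hT hdet hsym hbrk hsim hsum hirr hΘ A hA
  obtain ⟨h1, h2, h3, h4⟩ := tos_core hRED K₀ K n w h ψ P a (wideC_pos hT) hdet hsym hbrk hsim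
    hsum hirr hΘ
  have hA' : (A.map (algebraMap K₀ K)).transpose * ψ.map (algebraMap K₀ K) +
      ψ.map (algebraMap K₀ K) * A.map (algebraMap K₀ K) = 0 := by
    have h2 := congrArg (fun M : Matrix (Fin n) (Fin n) K₀ => M.map (algebraMap K₀ K)) hA
    change (A.transpose * ψ + ψ * A).map (algebraMap K₀ K) =
      (0 : Matrix (Fin n) (Fin n) K₀).map (algebraMap K₀ K) at h2
    rw [Matrix.map_add _ (fun x y => map_add (algebraMap K₀ K) x y), Matrix.map_mul,
      Matrix.map_mul, Matrix.transpose_map, Matrix.map_zero _ (map_zero (algebraMap K₀ K))] at h2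
    exact h2
  exact Tos.mem_of_map_mem_span a A (h2 (hTOP K n w h _ P _ hT h1 h3 h4 _ hA'))

theorem map_smul_sig {n : ℕ} (σ : ℂ ≃+* ℂ) (c : ℂ) (B : Matrix (Fin n) (Fin n) ℂ) :
    (c • B).map σ = σ c • B.map σ := by
  ext i j
  show σ (c * B i j) = σ c * σ (B i j)
  rw [map_mul]

theorem span_sig {n : ℕ} (a : Submodule ℚ (Matrix (Fin n) (Fin n) ℚ)) (σ : ℂ ≃+* ℂ)
    (B : Matrix (Fin n) (Fin n) ℂ)
    (hB : B ∈ Submodule.span ℂ {B | ∃ A ∈ a, B = A.map (algebraMap ℚ ℂ)}) :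
    B.map σ ∈ Submodule.span ℂ {B | ∃ A ∈ a, B = A.map (algebraMap ℚ ℂ)} := by
  induction hB using Submodule.span_induction with
  | mem B hB =>
    obtain ⟨A, hA, rfl⟩ := hB
    refine Submodule.subset_span ⟨A, hA, ?_⟩
    ext i j
    show σ ((A i j : ℚ) : ℂ) = ((A i j : ℚ) : ℂ)
    exact map_ratCast σ (A i j)
  | zero =>
    have : (0 : Matrix (Fin n) (Fin n) ℂ).map σ = 0 := Matrix.map_zero _ (map_zero σ)
    rw [this]
    exact Submodule.zero_mem _
  | add x y _ _ hx hy =>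
    rw [Matrix.map_add _ (fun x y => map_add σ x y)]
    exact Submodule.add_mem _ hx hy
  | smul c x _ hx =>
    rw [map_smul_sig]
    exact Submodule.smul_mem _ _ hx

theorem map_brk_sig {n : ℕ} (σ : ℂ ≃+* ℂ) (B C : Matrix (Fin n) (Fin n) ℂ) :
    (B * C - C * B).map σ = B.map σ * C.map σ - C.map σ * B.map σ := by
  have h1 : ∀ X Y : Matrix (Fin n) (Fin n) ℂ, (X * Y).map σ = X.map σ * Y.map σ := by
    intro X Y
    exact Matrix.map_mul (f := (σ : ℂ →+* ℂ))
  rw [Matrix.map_sub _ (fun x y => map_sub σ x y), h1, h1]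

theorem st_TOSH (hRED : ST_RED) (hTOPC : ST_TOSC) (hTOP : ST_TOPH) : ST_TOSH := by
  intro n w h ψ P a hT hdet hsym hbrk hsim hsum hirr hΘ hE A hA
  rcases hE with hE | hE
  swap
  · exact hTOPC ℚ ℂ n w h ψ P a (wideC_of_cop hT (cop_of_mid hE)) hdet hsym hbrk hsim hsum hirr hΘ
      A hA
  obtain ⟨h1, h2, h3, h4⟩ := tos_core hRED ℚ ℂ n w h ψ P a (wideH_pos hT) hdet hsym hbrk hsim
    hsum hirr hΘ
  have hA' : (A.map (algebraMap ℚ ℂ)).transpose * ψ.map (algebraMap ℚ ℂ) +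
      ψ.map (algebraMap ℚ ℂ) * A.map (algebraMap ℚ ℂ) = 0 := by
    have h2 := congrArg (fun M : Matrix (Fin n) (Fin n) ℚ => M.map (algebraMap ℚ ℂ)) hA
    change (A.transpose * ψ + ψ * A).map (algebraMap ℚ ℂ) =
      (0 : Matrix (Fin n) (Fin n) ℚ).map (algebraMap ℚ ℂ) at h2
    rw [Matrix.map_add _ (fun x y => map_add (algebraMap ℚ ℂ) x y), Matrix.map_mul,
      Matrix.map_mul, Matrix.transpose_map, Matrix.map_zero _ (map_zero (algebraMap ℚ ℂ))] at h2
    exact h2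
  refine Tos.mem_of_map_mem_span a A (h2 (hTOP n w h _ P _ hT h1 h3 h4 ?_ ?_ _ hA'))
  · intro σ B hB
    induction hB using Submodule.span_induction with
    | mem B hB =>
      obtain ⟨X, hX, Y, hY, rfl⟩ := hB
      rw [map_brk_sig]
      exact Submodule.subset_span ⟨_, span_sig a σ X hX, _, span_sig a σ Y hY, rfl⟩
    | zero =>
      have : (0 : Matrix (Fin n) (Fin n) ℂ).map σ = 0 := Matrix.map_zero _ (map_zero σ)
      rw [this]
      exact Submodule.zero_mem _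
    | add x y _ _ hx hy =>
      rw [Matrix.map_add _ (fun x y => map_add σ x y)]
      exact Submodule.add_mem _ hx hy
    | smul c x _ hx =>
      rw [map_smul_sig]
      exact Submodule.smul_mem _ _ hx
  · intro M hM
    refine hE M ?_
    set Θ := (P : Matrix (Fin n) (Fin n) ℂ) * Matrix.diagonal (fun j => (h j : ℂ)) *
      ((P⁻¹ : Matrix.GeneralLinearGroup (Fin n) ℂ) : Matrix (Fin n) (Fin n) ℂ) with hΘ'
    have h5 : dg P (fun j => 2 * (h j : ℤ) - (w : ℤ)) = (2 : ℂ) • Θ - (w : ℂ) • 1 := by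
      have h6 : Matrix.diagonal (fun j => ((2 * (h j : ℤ) - (w : ℤ) : ℤ) : ℂ)) =
          (2 : ℂ) • Matrix.diagonal (fun j => (h j : ℂ)) - (w : ℂ) • 1 := by
        ext i j
        by_cases hij : i = j
        · subst hij
          simp
        · simp [Matrix.diagonal_apply_ne _ hij, Matrix.one_apply_ne hij]
      unfold dg
      rw [h6, hΘ', Matrix.mul_sub, Matrix.sub_mul, Matrix.mul_smul, Matrix.smul_mul,
        Matrix.mul_smul, Matrix.smul_mul, Matrix.mul_one, Wtx.p_q P]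
    rw [h5, Matrix.mul_sub, Matrix.sub_mul, Matrix.mul_smul, Matrix.smul_mul, Matrix.mul_smul,
      Matrix.smul_mul, Matrix.mul_one, Matrix.one_mul, sub_left_inj] at hM
    exact smul_right_injective _ (two_ne_zero (α := ℂ)) hM

end MT
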