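import Pool.Agent.Helper21.WD.WT4
import Pool.Agent.Helper21.WE.Stmts

/-!
# WT4N: the types `(a, b, a)` with `2 b > 3 a ^ 2 + a`, without coprimality
-/

set_option autoImplicit false

open Matrix

namespace MT

open Wtx

theorem cz_comap {K : Type} [Field K] {n : ℕ} {s : Fin n → ℤ}
    {a : Submodule K (Matrix (Fin n) (Fin n) K)} (P : Matrix.GeneralLinearGroup (Fin n) K)
    (hcm : ∀ (X : Matrix (Fin n) (Fin n) K) (x : ℤ),
      (P : Matrix (Fin n) (Fin n) K) * cmp s x X *
        ((P⁻¹ : Matrix.GeneralLinearGroup (Fin n) K) : Matrix (Fin n) (Fin n) K) =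
      cmp s x ((P : Matrix (Fin n) (Fin n) K) * X *
        ((P⁻¹ : Matrix.GeneralLinearGroup (Fin n) K) : Matrix (Fin n) (Fin n) K)))
    (hcz : Cz s a) : Cz s (a.comap (cjP P)) := by
  set p : Matrix (Fin n) (Fin n) K := (P : Matrix (Fin n) (Fin n) K) with hp
  set q : Matrix (Fin n) (Fin n) K :=
    ((P⁻¹ : Matrix.GeneralLinearGroup (Fin n) K) : Matrix (Fin n) (Fin n) K) with hq
  have hpq : p * q = 1 := p_q P
  have hqp : q * p = 1 := q_p P
  intro A hA hAB
  have h0 : ∀ X : Matrix (Fin n) (Fin n) K, p * (q * X * p) * q = X := by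
    intro X
    calc p * (q * X * p) * q = (p * q) * X * (p * q) := by simp only [Matrix.mul_assoc]
      _ = X := by rw [hpq, Matrix.one_mul, Matrix.mul_one]
  have h0' : ∀ X : Matrix (Fin n) (Fin n) K, q * (p * X * q) * p = X := by
    intro X
    calc q * (p * X * q) * p = (q * p) * X * (q * p) := by simp only [Matrix.mul_assoc]
      _ = X := by rw [hqp, Matrix.one_mul, Matrix.mul_one]
  have hA' : p * A * q ∈ a := hA
  have h1 : p * A * q = 0 := by
    refine hcz _ hA' fun B hB hB1 => ?_
    have hc : ∀ x, cmp s x B = B → cmp s x (q * B * p) = q * B * p := by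
      intro x hx
      have h2 := hcm (q * B * p) x
      rw [h0, hx] at h2
      rw [← h0' (cmp s x (q * B * p)), h2]
    have h2 := hAB (q * B * p) (show p * (q * B * p) * q ∈ a by rw [h0]; exact hB)
      (hB1.imp (hc _) (hc _))
    calc p * A * q * B = p * (A * (q * B * p)) * q := by
          calc p * A * q * B = p * A * q * B * (p * q) := by rw [hpq, Matrix.mul_one]
            _ = p * (A * (q * B * p)) * q := by simp only [Matrix.mul_assoc]
      _ = p * (q * B * p * A) * q := by rw [h2]
      _ = (p * q) * B * (p * A * q) := by simp only [Matrix.mul_assoc]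
      _ = B * (p * A * q) := by rw [hpq, Matrix.one_mul]
  rw [← h0' A, h1, Matrix.mul_zero, Matrix.zero_mul]

theorem st_WT4N (hGRA : ST_GRA) (tr2 : ST_TR2) (gcn : ST_GCN) (one : ST_ONE) (bd3 : ST_BD3) :
    ST_WT4N := by
  intro K _ _ _ n ε ψ s a gs hs1 hex hlt hexc hcz
  have hex0 : ∃ j, s j = 0 := by
    obtain ⟨j, hj⟩ := Finset.card_pos.mp
      (show 0 < (Finset.univ.filter fun j => s j = 0).card by omega)
    exact ⟨j, (Finset.mem_filter.mp hj).2⟩
  rcases tr2 K n ε ψ s a gs with ⟨P, d, hP, htwo, hd0, hD⟩ | hrk
  · set p : Matrix (Fin n) (Fin n) K := (P : Matrix (Fin n) (Fin n) K) with hp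
    set q : Matrix (Fin n) (Fin n) K :=
      ((P⁻¹ : Matrix.GeneralLinearGroup (Fin n) K) : Matrix (Fin n) (Fin n) K) with hq
    have hpq : p * q = 1 := p_q P
    have hqp : q * p = 1 := q_p P
    have hcp : p * Matrix.diagonal (fun j => (s j : K)) =
        Matrix.diagonal (fun j => (s j : K)) * p := by
      ext i j
      rw [Matrix.mul_diagonal, Matrix.diagonal_mul]
      by_cases h0 : p i j = 0
      · rw [h0, zero_mul, mul_zero]
      · rw [hP i j h0, mul_comm]
    have hcq : q * Matrix.diagonal (fun j => (s j : K)) =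
        Matrix.diagonal (fun j => (s j : K)) * q := by
      calc q * Matrix.diagonal (fun j => (s j : K))
          = q * (Matrix.diagonal (fun j => (s j : K)) * p) * q := by
            rw [Matrix.mul_assoc, Matrix.mul_assoc, hpq, Matrix.mul_one]
        _ = Matrix.diagonal (fun j => (s j : K)) * q := by
            rw [← hcp, ← Matrix.mul_assoc, hqp, Matrix.one_mul]
    have hQ : ∀ i j, q i j ≠ 0 → s i = s j := by
      intro i j h0
      have h1 := congrFun (congrFun hcq i) j
      rw [Matrix.mul_diagonal, Matrix.diagonal_mul, mul_comm] at h1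
      have h2 := mul_right_cancel₀ h0 h1
      exact_mod_cast h2.symm
    have hcm : ∀ (X : Matrix (Fin n) (Fin n) K) (x : ℤ),
        p * cmp s x X * q = cmp s x (p * X * q) := by
      intro X x
      ext i j
      simp only [cmp, Matrix.mul_apply, Matrix.of_apply]
      by_cases hx : s i - s j = x
      · rw [if_pos hx]
        refine Finset.sum_congr rfl fun l _ => ?_
        by_cases hl : q l j = 0
        · rw [hl, mul_zero, mul_zero]
        · congr 1
          refine Finset.sum_congr rfl fun k _ => ?_
          by_cases hk : p i k = 0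
          · rw [hk, zero_mul, zero_mul]
          · have h1 := hQ l j hl
            have h2 := hP i k hk
            rw [if_pos (by omega)]
      · rw [if_neg hx]
        refine Finset.sum_eq_zero fun l _ => ?_
        by_cases hl : q l j = 0
        · rw [hl, mul_zero]
        · have h3 : ∑ k, p i k * (if s k - s l = x then X k l else 0) = 0 := by
            refine Finset.sum_eq_zero fun k _ => ?_
            by_cases hk : p i k = 0
            · rw [hk, zero_mul]
            · have h1 := hQ l j hl
              have h2 := hP i k hk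
              rw [if_neg (by omega), mul_zero]
          rw [h3, zero_mul]
    have hψs : ∀ i j, (p.transpose * ψ * p) i j ≠ 0 → s i + s j = 0 := by
      intro i j hij
      rw [Matrix.mul_apply] at hij
      obtain ⟨l, -, hl⟩ := Finset.exists_ne_zero_of_sum_ne_zero hij
      have hl1 := left_ne_zero_of_mul hl
      rw [Matrix.mul_apply] at hl1
      obtain ⟨k, -, hk⟩ := Finset.exists_ne_zero_of_sum_ne_zero hl1
      have h1 := hP k i (left_ne_zero_of_mul hk)
      have h2 := gs.grad k l (right_ne_zero_of_mul hk)
      have h3 := hP l j (right_ne_zero_of_mul hl)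
      omega
    have gs' := chg (s := s) P gs.unit gs.symm gs.sign gs.brk gs.irr gs.iso hψs (by
      intro A hA x
      show cjP P (cmp s x A) ∈ a
      rw [cjP_apply, hcm]
      exact gs.comp _ hA x)
    have hD' : Matrix.diagonal (fun j => (d j : K)) ∈ a.comap (cjP P) := hD
    have hψd : ∀ i j, (p.transpose * ψ * p) i j ≠ 0 → d i + d j = 0 := by
      intro i j hij
      have h1 := congrFun (congrFun (gs'.iso _ hD') i) j
      rw [Matrix.diagonal_transpose, Matrix.add_apply, Matrix.diagonal_mul,
        Matrix.mul_diagonal, Matrix.zero_apply] at h1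
      have h2 : ((d i + d j : ℤ) : K) * (p.transpose * ψ * p) i j = 0 := by
        rw [← h1]
        push_cast
        ring
      have h3 := (mul_eq_zero.mp h2).resolve_right hij
      exact_mod_cast h3
    have gd' := chg (s := d) P gs.unit gs.symm gs.sign gs.brk gs.irr gs.iso hψd
      (hGRA K n _ d fun A hA => gs'.brk _ hD' _ hA)
    exact back P (gcn K n ε _ s d _ gs' gd' hs1 hex hd0 htwo (cz_comap P hcm hcz))
  · have hpos : 0 < (Finset.univ.filter fun j => s j = 1).card := by
      obtain ⟨j, hj⟩ := hex
      exact Finset.card_pos.mpr ⟨j, by simpa using hj⟩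
    rcases Nat.lt_or_ge (Finset.univ.filter fun j => s j = 1).card 2 with h1 | h1
    · exact one K n ε ψ s a gs hs1 (by omega) hex0
    · exfalso
      obtain ⟨d, hd1, hd2⟩ := bd3 K n ε ψ s a gs hs1 hex
      exact wt4_arith _ _ d _ h1 hrk hd1 hd2 hlt hexc

end MT
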