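import Pool.Agent.Helper21.WD.FinalT
import Pool.Agent.Helper21.WE.CZ
import Pool.Agent.Helper21.WE.GEN0
import Pool.Agent.Helper21.WE.GCN
import Pool.Agent.Helper21.WE.GC5N
import Pool.Agent.Helper21.WE.SC2N
import Pool.Agent.Helper21.WE.WT4N
import Pool.Agent.Helper21.WE.WT5N
import Pool.Agent.Helper21.WE.TOPN
import Pool.Agent.Helper21.WE.TOPH
import Pool.Agent.Helper21.WE.TOSH
import Pool.Agent.Helper21.WE.FULN
import Pool.Agent.Helper21.WE.HSGN
import Pool.Agent.Helper21.WE.MAINN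
import Pool.Agent.Helper3.WE.SSL
import Pool.Agent.Helper72.WE.DSC
import Pool.Agent.Helper82.WE.KRD
import Pool.Agent.Helper84.WE.TNS

/-!
# The final theorem (T15)
-/

set_option autoImplicit false

open NumberField MU

namespace MT

theorem gen0_final : ST_GEN0 := st_GEN0 st_SSL

theorem tns_final : ST_TNS := st_TNS st_SSL

theorem gcn_final : ST_GCN := st_GCN st_ALG st_RK1 st_SPB st_TPI st_FIN gen0_final

theorem wt4n_final : ST_WT4N := st_WT4N st_GRA st_TR2 gcn_final (st_ONE st_SPB) bd3_final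

theorem wt5n_final : ST_WT5N :=
  st_WT5N st_GRA (st_TOR5' st_ENG) pos0_final
    (st_GC5N st_ALG st_RK1 st_SPB st_TPI st_FIN st_GRA st_V0I' gen0_final)
    (st_SC2N st_ALG st_RK1 st_TRC st_SPB st_TPI st_FIN gen0_final) st_SPB st_TPI

theorem topn_final : ST_TOPN :=
  st_TOPN (st_ADD st_DRV) st_SHF st_GRA gcn_final wt4n_final wt5n_final

theorem topg_final : ST_TOPG :=
  st_TOPG (st_LIE9 (st_CMP (st_KIR st_RED st_TPI st_ABE)) (st_END st_GEN)) (st_ADD st_DRV) st_SHF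
    (st_ONE st_SPB) st_GRA

theorem tosc_of (idl : ST_IDL) : ST_TOSC :=
  st_TOSC st_RED (st_TOPC topg_final topn_final (st_CZC tns_final st_KRD idl))

theorem tosh_of (tri : MT.ST_TRI) (idl : ST_IDL) : ST_TOSH :=
  st_TOSH st_RED (tosc_of idl)
    (st_TOPH topg_final topn_final (st_CZH tns_final st_KRD tri idl st_DSC))

end MT

namespace MR

open MT

theorem mainN_of (tri : MT.ST_TRI) (idl : ST_IDL) : ST_MAINN := by
  have tosem : ST_TOSEM :=
    st_TOSEM st_RED (st_EIGM st_SPCM st_ADS st_DRV st_GRA (st_ONE st_SPB) (wt4_of bd3_final)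
      (wt5_of pos0_final))
  have irl : MR.ST_IRL := MR.st_IRL st_LGP st_DEN st_OI1 st_OI2 st_ZAR MR.st_HSM
  have hsg : ST_HSGN := st_HSGN MR.st_HLA (MR.st_HIR st_OI2) st_DEN (tosh_of tri idl) st_TSC
    MR.st_HWT (MR.st_HDG7 st_TEN) MR.st_HSM
  exact st_MAINN (st_FULN irl (tosc_of idl) tosem st_ZAR MR.st_HSM) hsg st_ZAR st_TEN st_SIM
    st_SIM7 st_ISM (MR.st_G07 st_TEN) (MR.st_HDG7 st_TEN) st_IDX st_FRE st_CYC

end MR
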