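import Pool.Agent.Helper21.WE.FinalN
import Pool.Agent.Helper82.WE.TRI
import Pool.Agent.Helper72.WE.IDL

/-!
# The final theorem (T15)
-/

set_option autoImplicit false

namespace MT

theorem idl_final : ST_IDL := st_IDL st_SPB st_TPI st_GRA

theorem tri_final : MT.ST_TRI := MT.st_TRI st_SSL tns_final

theorem tosc_final : ST_TOSC := tosc_of idl_final

theorem tosh_final : ST_TOSH := tosh_of tri_final idl_final

end MT

namespace MR

theorem mainN_final : ST_MAINN := mainN_of MT.tri_final MT.idl_final

end MR
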